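import Pool.Agent.K3h67.CHT.Tri

/-!
# The arithmetic `(12,12,12)` triangle group is discrete

The matrices of the three reflections in a suitable basis have entries in `ℤ[ζ]`, `ζ = exp (π i / 6)`,
and the conjugate matrices (`√3 ↦ -√3`) preserve a positive definite Hermitian form.
-/

set_option autoImplicit false

namespace Pool.Agent.K3h67.CHT

open Matrix Complex ComplexConjugate

/-- `exp (π i / 6)` -/
noncomputable def ze : ℂ := ⟨√3 / 2, 1 / 2⟩

/-- `exp (5 π i / 6)` -/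
noncomputable def ze' : ℂ := ⟨-√3 / 2, 1 / 2⟩

theorem ze_sq : ze ^ 2 = ⟨1 / 2, √3 / 2⟩ := by
  have hs := s3_sq
  apply Complex.ext
  · simp [ze, pow_two]
    linear_combination (1 / 4) * hs
  · simp [ze, pow_two]
    ring

theorem ze'_sq : ze' ^ 2 = ⟨1 / 2, -√3 / 2⟩ := by
  have hs := s3_sq
  apply Complex.ext
  · simp [ze', pow_two]
    linear_combination (1 / 4) * hs
  · simp [ze', pow_two]
    ring

theorem ze_cube : ze ^ 3 = I := by
  have hs := s3_sq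
  rw [pow_succ, ze_sq]
  apply Complex.ext
  · simp [ze]
    ring
  · simp [ze]
    linear_combination (1 / 4) * hs

theorem ze'_cube : ze' ^ 3 = I := by
  have hs := s3_sq
  rw [pow_succ, ze'_sq]
  apply Complex.ext
  · simp [ze']
    ring
  · simp [ze']
    linear_combination (1 / 4) * hs

theorem ze_four : ze ^ 4 = ze ^ 2 - 1 := by
  have hs := s3_sq
  rw [pow_succ, ze_cube, ze_sq]
  apply Complex.ext
  · simp [ze]
    norm_num
  · simp [ze]

theorem ze'_four : ze' ^ 4 = ze' ^ 2 - 1 := by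
  have hs := s3_sq
  rw [pow_succ, ze'_cube, ze'_sq]
  apply Complex.ext
  · simp [ze']
    norm_num
  · simp [ze']

/-- `z` is an element of `ℤ[ζ]` and `z'` is its conjugate. -/
def Lam (z z' : ℂ) : Prop :=
  ∃ a b c d : ℤ, z = a + b * ze + c * ze ^ 2 + d * ze ^ 3 ∧
    z' = a + b * ze' + c * ze' ^ 2 + d * ze' ^ 3

theorem Lam.zero : Lam 0 0 := ⟨0, 0, 0, 0, by simp, by simp⟩

theorem Lam.one : Lam 1 1 := ⟨1, 0, 0, 0, by simp, by simp⟩

theorem Lam.add {z z' w w' : ℂ} (h : Lam z z') (k : Lam w w') : Lam (z + w) (z' + w') := by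
  obtain ⟨a, b, c, d, rfl, rfl⟩ := h
  obtain ⟨a', b', c', d', rfl, rfl⟩ := k
  exact ⟨a + a', b + b', c + c', d + d', by push_cast; ring, by push_cast; ring⟩

theorem Lam.mul {z z' w w' : ℂ} (h : Lam z z') (k : Lam w w') : Lam (z * w) (z' * w') := by
  obtain ⟨a, b, c, d, rfl, rfl⟩ := h
  obtain ⟨a', b', c', d', rfl, rfl⟩ := k
  refine ⟨a * a' - (b * d' + c * c' + d * b') - d * d', a * b' + b * a' - (c * d' + d * c'),
    a * c' + b * b' + c * a' + (b * d' + c * c' + d * b'),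
    a * d' + b * c' + c * b' + d * a' + (c * d' + d * c'), ?_, ?_⟩
  · push_cast
    linear_combination ((b * d' + c * c' + d * b') + (c * d' + d * c') * ze +
      d * d' * (ze ^ 2 + 1) : ℂ) * ze_four
  · push_cast
    linear_combination ((b * d' + c * c' + d * b') + (c * d' + d * c') * ze' +
      d * d' * (ze' ^ 2 + 1) : ℂ) * ze'_four

theorem Lam.sum {f g : Fin 3 → ℂ} (h : ∀ k, Lam (f k) (g k)) : Lam (∑ k, f k) (∑ k, g k) := by
  rw [Fin.sum_univ_three, Fin.sum_univ_three]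
  exact ((h 0).add (h 1)).add (h 2)

theorem finite_int (K : ℝ) : {a : ℤ | |(a : ℝ)| ≤ K}.Finite := by
  refine (Set.finite_Icc (-⌈K⌉) ⌈K⌉).subset ?_
  intro a ha
  have h1 := abs_le.1 (show |(a : ℝ)| ≤ K from ha)
  have h2 := Int.le_ceil K
  constructor
  · have : ((-⌈K⌉ : ℤ) : ℝ) ≤ a := by push_cast; linarith
    exact_mod_cast this
  · have : (a : ℝ) ≤ (⌈K⌉ : ℤ) := by linarith
    exact_mod_cast this

/-- There are only finitely many elements of `ℤ[ζ]` which are bounded together with their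
conjugates. -/
theorem Lam.finite (B C : ℝ) : {z : ℂ | ∃ z', Lam z z' ∧ ‖z‖ ≤ B ∧ ‖z'‖ ≤ C}.Finite := by
  set K : ℝ := B + C with hK
  have hf := finite_int K
  refine ((((hf.prod hf).prod (hf.prod hf))).image
    (fun t : (ℤ × ℤ) × (ℤ × ℤ) => (t.1.1 : ℂ) + t.1.2 * ze + t.2.1 * ze ^ 2 + t.2.2 * ze ^ 3)).subset
    ?_
  rintro z ⟨z', ⟨a, b, c, d, hz, hz'⟩, h1, h2⟩
  have hs := s3_sq
  have hlo := s3_lo
  have r1 : z.re = a + b * (√3 / 2) + c / 2 := by
    rw [hz, ze_cube, ze_sq]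
    simp [ze]
    ring
  have i1 : z.im = b / 2 + c * (√3 / 2) + d := by
    rw [hz, ze_cube, ze_sq]
    simp [ze]
    ring
  have r2 : z'.re = a - b * (√3 / 2) + c / 2 := by
    rw [hz', ze'_cube, ze'_sq]
    simp [ze']
    ring
  have i2 : z'.im = b / 2 - c * (√3 / 2) + d := by
    rw [hz', ze'_cube, ze'_sq]
    simp [ze']
    ring
  have q1 := abs_le.1 ((Complex.abs_re_le_norm z).trans h1)
  have q2 := abs_le.1 ((Complex.abs_im_le_norm z).trans h1)
  have q3 := abs_le.1 ((Complex.abs_re_le_norm z').trans h2)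
  have q4 := abs_le.1 ((Complex.abs_im_le_norm z').trans h2)
  have hb : |(b : ℝ)| * √3 ≤ K := by
    have : |(b : ℝ) * √3| ≤ K := by
      rw [abs_le]
      constructor <;> linarith
    rwa [abs_mul, abs_of_pos (by linarith : (0 : ℝ) < √3)] at this
  have hc : |(c : ℝ)| * √3 ≤ K := by
    have : |(c : ℝ) * √3| ≤ K := by
      rw [abs_le]
      constructor <;> linarith
    rwa [abs_mul, abs_of_pos (by linarith : (0 : ℝ) < √3)] at this
  have hb' : |(b : ℝ)| ≤ K := by nlinarith [abs_nonneg (b : ℝ)]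
  have hc' : |(c : ℝ)| ≤ K := by nlinarith [abs_nonneg (c : ℝ)]
  have hb2 := abs_le.1 hb'
  have hc2 := abs_le.1 hc'
  refine ⟨((a, b), (c, d)), ⟨⟨?_, hb'⟩, ⟨hc', ?_⟩⟩, hz.symm⟩
  · change |(a : ℝ)| ≤ K
    rw [abs_le]
    constructor <;> linarith
  · change |(d : ℝ)| ≤ K
    rw [abs_le]
    constructor <;> linarith

/-- The positive definite Hermitian form which is preserved by the conjugate group. -/
noncomputable def Q' (x : V) : ℝ :=
  2 * ‖x 0‖ ^ 2 + 2 * (2 - √3) * ‖x 1‖ ^ 2 + 2 * ‖x 2‖ ^ 2 +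
    2 * ((2 - √3) * (x 0 * conj (x 1)) + (1 + ze') * (x 0 * conj (x 2)) +
      (2 - √3) * (x 1 * conj (x 2)) : ℂ).re

theorem norm_one_add_ze' : ‖(1 + ze' : ℂ)‖ ^ 2 = 2 - √3 := by
  have hs := s3_sq
  rw [← Complex.normSq_eq_norm_sq, Complex.normSq_apply]
  simp [ze']
  linear_combination (1 / 4) * hs

theorem Q'_ge (x : V) : (1 / 4) * (‖x 0‖ ^ 2 + ‖x 1‖ ^ 2 + ‖x 2‖ ^ 2) ≤ Q' x := by
  have hs := s3_sq
  have hlo := s3_lo
  have hhi := s3_hi
  have h1 : ‖(1 + ze' : ℂ)‖ ≤ 0.52 := by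
    have := norm_one_add_ze'
    have h0 := norm_nonneg (1 + ze' : ℂ)
    nlinarith
  have b1 : -(((2 - √3) : ℝ) * (‖x 0‖ * ‖x 1‖)) ≤ ((2 - √3) * (x 0 * conj (x 1)) : ℂ).re := by
    have := Complex.abs_re_le_norm ((2 - √3) * (x 0 * conj (x 1)) : ℂ)
    have e : ‖((2 - √3) * (x 0 * conj (x 1)) : ℂ)‖ = (2 - √3) * (‖x 0‖ * ‖x 1‖) := by
      rw [norm_mul, norm_mul, Complex.norm_conj]
      have : ((2 : ℂ) - √3) = ((2 - √3 : ℝ) : ℂ) := by push_cast; ring
      rw [this, Complex.norm_real, Real.norm_eq_abs, abs_of_pos (by linarith)]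
    rw [e] at this
    exact (abs_le.1 this).1
  have b3 : -(((2 - √3) : ℝ) * (‖x 1‖ * ‖x 2‖)) ≤ ((2 - √3) * (x 1 * conj (x 2)) : ℂ).re := by
    have := Complex.abs_re_le_norm ((2 - √3) * (x 1 * conj (x 2)) : ℂ)
    have e : ‖((2 - √3) * (x 1 * conj (x 2)) : ℂ)‖ = (2 - √3) * (‖x 1‖ * ‖x 2‖) := by
      rw [norm_mul, norm_mul, Complex.norm_conj]
      have : ((2 : ℂ) - √3) = ((2 - √3 : ℝ) : ℂ) := by push_cast; ring
      rw [this, Complex.norm_real, Real.norm_eq_abs, abs_of_pos (by linarith)]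
    rw [e] at this
    exact (abs_le.1 this).1
  have b2 : -(0.52 * (‖x 0‖ * ‖x 2‖)) ≤ ((1 + ze') * (x 0 * conj (x 2)) : ℂ).re := by
    have := Complex.abs_re_le_norm ((1 + ze') * (x 0 * conj (x 2)) : ℂ)
    have e : ‖((1 + ze') * (x 0 * conj (x 2)) : ℂ)‖ ≤ 0.52 * (‖x 0‖ * ‖x 2‖) := by
      rw [norm_mul, norm_mul, Complex.norm_conj]
      exact mul_le_mul_of_nonneg_right h1 (by positivity)
    exact (abs_le.1 (this.trans e)).1
  unfold Q'
  rw [Complex.add_re, Complex.add_re]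
  generalize ((2 - √3) * (x 0 * conj (x 1)) : ℂ).re = u1 at *
  generalize ((1 + ze') * (x 0 * conj (x 2)) : ℂ).re = u2 at *
  generalize ((2 - √3) * (x 1 * conj (x 2)) : ℂ).re = u3 at *
  have p0 := norm_nonneg (x 0)
  have p1 := norm_nonneg (x 1)
  have p2 := norm_nonneg (x 2)
  generalize ‖x 0‖ = a at *
  generalize ‖x 1‖ = b at *
  generalize ‖x 2‖ = c at *
  have k1 : 2 * (a * b) ≤ 4 * a ^ 2 + b ^ 2 / 4 := by nlinarith [sq_nonneg (2 * a - b / 2)]
  have k3 : 2 * (b * c) ≤ 4 * c ^ 2 + b ^ 2 / 4 := by nlinarith [sq_nonneg (2 * c - b / 2)]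
  have k2 : 2 * (a * c) ≤ a ^ 2 + c ^ 2 := by nlinarith [sq_nonneg (a - c)]
  have m : 0.2679 < 2 - √3 := by linarith
  have m' : 2 - √3 < 0.268 := by linarith
  have l1 : (2 - √3) * (2 * (a * b)) ≤ (2 - √3) * (4 * a ^ 2 + b ^ 2 / 4) :=
    mul_le_mul_of_nonneg_left k1 (by linarith)
  have l3 : (2 - √3) * (2 * (b * c)) ≤ (2 - √3) * (4 * c ^ 2 + b ^ 2 / 4) :=
    mul_le_mul_of_nonneg_left k3 (by linarith)
  have t1 : (2 - √3) * a ^ 2 ≤ 0.268 * a ^ 2 := mul_le_mul_of_nonneg_right m'.le (by positivity)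
  have t2 : (2 - √3) * c ^ 2 ≤ 0.268 * c ^ 2 := mul_le_mul_of_nonneg_right m'.le (by positivity)
  have t3 : 0.2679 * b ^ 2 ≤ (2 - √3) * b ^ 2 := mul_le_mul_of_nonneg_right m.le (by positivity)
  nlinarith [sq_nonneg a, sq_nonneg b, sq_nonneg c]

end Pool.Agent.K3h67.CHT
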