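import Mathlib

/-!
# Complex hyperbolic triangle groups: definitions

The Hermitian form of signature `(2,1)` on `ℂ³`, the groups `SU(2,1)` and `PU(2,1)`, complex
reflections of order two, the groups `Γ(p,q,r)`, complex hyperbolic triangles, triangle group
representations, elliptic elements and the type of a triple.
-/

set_option autoImplicit false

namespace Pool.Agent.K3h67.CHT

open Matrix Complex ComplexConjugate

/-- The vector space `ℂ³`. -/
abbrev V := Fin 3 → ℂ

/-- The Hermitian form `x₁ ȳ₁ + x₂ ȳ₂ - x₃ ȳ₃` of signature `(2,1)`. -/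
def herm (x y : V) : ℂ := x 0 * conj (y 0) + x 1 * conj (y 1) - x 2 * conj (y 2)

/-- The image of the vector `v` under the matrix `A`. -/
def app (A : SpecialLinearGroup (Fin 3) ℂ) (v : V) : V := (A : Matrix (Fin 3) (Fin 3) ℂ) *ᵥ v

@[simp] theorem app_mul (A B : SpecialLinearGroup (Fin 3) ℂ) (v : V) :
    app (A * B) v = app A (app B v) := by
  simp [app, mulVec_mulVec]

@[simp] theorem app_one (v : V) : app 1 v = v := by
  simp [app]

@[simp] theorem app_inv_cancel (A : SpecialLinearGroup (Fin 3) ℂ) (v : V) :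
    app A (app A⁻¹ v) = v := by
  rw [← app_mul, mul_inv_cancel, app_one]

@[simp] theorem app_inv_cancel' (A : SpecialLinearGroup (Fin 3) ℂ) (v : V) :
    app A⁻¹ (app A v) = v := by
  rw [← app_mul, inv_mul_cancel, app_one]

theorem app_smul (A : SpecialLinearGroup (Fin 3) ℂ) (c : ℂ) (v : V) :
    app A (c • v) = c • app A v := mulVec_smul _ _ _

theorem app_add (A : SpecialLinearGroup (Fin 3) ℂ) (v w : V) :
    app A (v + w) = app A v + app A w := mulVec_add _ _ _

/-- The group `SU(2,1)` of the matrices of determinant one which preserve the form `herm`. -/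
def SU21 : Subgroup (SpecialLinearGroup (Fin 3) ℂ) where
  carrier := {A | ∀ x y : V, herm (app A x) (app A y) = herm x y}
  mul_mem' := by
    intro A B hA hB x y
    rw [app_mul, app_mul, hA, hB]
  one_mem' := by
    intro x y
    rw [app_one, app_one]
  inv_mem' := by
    intro A hA x y
    rw [← hA, app_inv_cancel, app_inv_cancel]

/-- The subgroup of the scalar matrices in `SU(2,1)`. -/
def scalars : Subgroup SU21 where
  carrier := {A | ∃ c : ℂ, ∀ v : V, app A v = c • v}
  mul_mem' := by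
    rintro A B ⟨a, ha⟩ ⟨b, hb⟩
    refine ⟨a * b, fun v => ?_⟩
    rw [Subgroup.coe_mul, app_mul, hb, ha, smul_smul]
  one_mem' := ⟨1, fun v => by simp⟩
  inv_mem' := by
    rintro A ⟨a, ha⟩
    have ha0 : a ≠ 0 := by
      rintro rfl
      have h1 := app_inv_cancel (A : SpecialLinearGroup (Fin 3) ℂ) (fun _ => 1)
      rw [ha, zero_smul] at h1
      have := congrFun h1 0
      simp at this
    refine ⟨a⁻¹, fun v => ?_⟩
    have h2 := app_inv_cancel (A : SpecialLinearGroup (Fin 3) ℂ) v
    rw [ha] at h2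
    rw [Subgroup.coe_inv, ← h2, smul_smul, inv_mul_cancel₀ ha0, one_smul, h2]

instance : scalars.Normal := by
  constructor
  rintro A ⟨a, ha⟩ g
  refine ⟨a, fun v => ?_⟩
  rw [Subgroup.coe_mul, Subgroup.coe_mul, Subgroup.coe_inv, app_mul, app_mul, ha, app_smul,
    app_inv_cancel]

/-- The group `PU(2,1) = SU(2,1) / (scalar matrices)`, with the quotient topology. -/
abbrev PU21 := SU21 ⧸ scalars

/-- `g` is the complex reflection of order two in the complex line polar to the positive vector `n`,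
i.e. `g` is the class of `v ↦ -v + 2 ⟨v,n⟩/⟨n,n⟩ n`. -/
def IsReflectionIn (g : PU21) (n : V) : Prop :=
  ∃ A : SU21, (A : PU21) = g ∧ ∀ v : V, app A v = -v + (2 * herm v n / herm n n) • n

/-- `g` is elliptic: it fixes a point of the complex hyperbolic plane, i.e. a matrix of the class
`g` has a negative eigenvector. -/
def IsElliptic (g : PU21) : Prop :=
  ∃ A : SU21, (A : PU21) = g ∧ ∃ v : V, (herm v v).re < 0 ∧ ∃ l : ℂ, app A v = l • v

/-- The relations of `Γ(p,q,r)`. -/
def rels (p q r : ℕ) : Set (FreeGroup (Fin 3)) :=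
  {FreeGroup.of 0 ^ 2, FreeGroup.of 1 ^ 2, FreeGroup.of 2 ^ 2,
    (FreeGroup.of 0 * FreeGroup.of 1) ^ p, (FreeGroup.of 1 * FreeGroup.of 2) ^ q,
    (FreeGroup.of 2 * FreeGroup.of 0) ^ r}

/-- The group `Γ(p,q,r) = ⟨σ₁, σ₂, σ₃ | σ_k², (σ₁σ₂)^p, (σ₂σ₃)^q, (σ₃σ₁)^r⟩`. -/
abbrev Gam (p q r : ℕ) := PresentedGroup (rels p q r)

/-- The generators `σ₁ = sig 0`, `σ₂ = sig 1`, `σ₃ = sig 2` of `Γ(p,q,r)`. -/
def sig {p q r : ℕ} (k : Fin 3) : Gam p q r := PresentedGroup.of k

/-- `W_A = σ₁σ₂σ₃σ₂`. -/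
def WA (p q r : ℕ) : Gam p q r := sig 0 * sig 1 * sig 2 * sig 1

/-- `W_B = σ₁σ₂σ₃`. -/
def WB (p q r : ℕ) : Gam p q r := sig 0 * sig 1 * sig 2

/-- A complex hyperbolic `(p,q,r)` triangle, given by linearly independent unit vectors polar to its
three complex lines; two complex lines with unit polar vectors `m`, `n` meet at the angle `θ` if
`|⟨m,n⟩| = cos θ`. -/
structure IsTriangle (p q r : ℕ) (n : Fin 3 → V) : Prop where
  unit : ∀ k, herm (n k) (n k) = 1
  indep : LinearIndependent ℂ n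
  angle₁₂ : ‖herm (n 0) (n 1)‖ = Real.cos (Real.pi / p)
  angle₂₃ : ‖herm (n 1) (n 2)‖ = Real.cos (Real.pi / q)
  angle₃₁ : ‖herm (n 2) (n 0)‖ = Real.cos (Real.pi / r)

/-- The angular invariant `arg (-⟨n₁,n₂⟩⟨n₂,n₃⟩⟨n₃,n₁⟩)` of a triangle. The three vectors and this
number determine the triangle up to isometry; it is `0` for the triangle in a real plane. -/
noncomputable def ang (n : Fin 3 → V) : ℝ :=
  Complex.arg (-(herm (n 0) (n 1) * herm (n 1) (n 2) * herm (n 2) (n 0)))

/-- `ρ` is the `(p,q,r)` triangle group with the triangle `n`: `ρ(σ_k)` is the complex reflection of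
order two in the line polar to `n k`. -/
structure IsTriangleRep (p q r : ℕ) (n : Fin 3 → V) (ρ : Gam p q r →* PU21) : Prop where
  tri : IsTriangle p q r n
  refl : ∀ k, IsReflectionIn (ρ (sig k)) (n k)

/-- Type A: as the angular invariant increases from `0`, `ρ(W_A)` becomes elliptic strictly before
`ρ(W_B)` does. -/
def TypeA (p q r : ℕ) : Prop :=
  ∃ (n : Fin 3 → V) (ρ : Gam p q r →* PU21), IsTriangleRep p q r n ρ ∧ 0 ≤ ang n ∧
    IsElliptic (ρ (WA p q r)) ∧
    ∀ (n' : Fin 3 → V) (ρ' : Gam p q r →* PU21), IsTriangleRep p q r n' ρ' → 0 ≤ ang n' →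
      ang n' ≤ ang n → ¬ IsElliptic (ρ' (WB p q r))

/-- Type B: not type A. -/
def TypeB (p q r : ℕ) : Prop := ¬ TypeA p q r

end Pool.Agent.K3h67.CHT
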