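import Pool.Agent.K3h67.CHT.Arith

/-!
# Discreteness of the arithmetic `(12,12,12)` triangle group
-/

set_option autoImplicit false

namespace Pool.Agent.K3h67.CHT

open Matrix Complex ComplexConjugate Topology

/-- The matrices of the reflections in the basis `n₁, 2 c n₂, n₃`. -/
noncomputable def MM (z w m : ℂ) : Fin 3 → Matrix (Fin 3) (Fin 3) ℂ :=
  ![!![1, m, 1 + w; 0, -1, 0; 0, 0, -1], !![-1, 0, 0; 1, 1, 1; 0, 0, -1],
    !![-1, 0, 0; 0, -1, 0; 1 + z, m, 1]]

theorem Lam_ze : Lam ze ze' := ⟨0, 1, 0, 0, by simp, by simp⟩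

theorem conj_ze : conj ze = ze - ze ^ 3 := by
  rw [ze_cube]
  apply Complex.ext
  · simp [ze]
  · simp [ze]; norm_num

theorem conj_ze' : conj ze' = ze' - ze' ^ 3 := by
  rw [ze'_cube]
  apply Complex.ext
  · simp [ze']
  · simp [ze']; norm_num

theorem Lam_conj : Lam (conj ze) (conj ze') :=
  ⟨0, 1, 0, -1, by rw [conj_ze]; push_cast; ring, by rw [conj_ze']; push_cast; ring⟩

theorem mu_eq : ((2 + √3 : ℝ) : ℂ) = 2 + 2 * ze - ze ^ 3 := by
  rw [ze_cube]
  apply Complex.ext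
  · simp [ze]; ring
  · simp [ze]

theorem mu'_eq : ((2 - √3 : ℝ) : ℂ) = 2 + 2 * ze' - ze' ^ 3 := by
  rw [ze'_cube]
  apply Complex.ext
  · simp [ze']; ring
  · simp [ze']

theorem Lam_mu : Lam ((2 + √3 : ℝ) : ℂ) ((2 - √3 : ℝ) : ℂ) :=
  ⟨2, 2, 0, -1, by rw [mu_eq]; push_cast; ring, by rw [mu'_eq]; push_cast; ring⟩

theorem Lam_MM (k i j : Fin 3) :
    Lam (MM ze (conj ze) ((2 + √3 : ℝ) : ℂ) k i j) (MM ze' (conj ze') ((2 - √3 : ℝ) : ℂ) k i j) := by
  have h0 := Lam.zero
  have h1 := Lam.one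
  have hm1 : Lam (-1) (-1) := ⟨-1, 0, 0, 0, by simp, by simp⟩
  have hz := h1.add Lam_ze
  have hw := h1.add Lam_conj
  have hm := Lam_mu
  fin_cases k <;> fin_cases i <;> fin_cases j <;> first
    | exact h0 | exact h1 | exact hm1 | exact hz | exact hw | exact hm

/-- `Q'` is preserved by the conjugate matrices. -/
theorem Q'_MM (k : Fin 3) (x : V) :
    Q' (MM ze' (conj ze') ((2 - √3 : ℝ) : ℂ) k *ᵥ x) = Q' x := by
  have hs := s3_sq
  unfold Q'
  simp only [← Complex.normSq_eq_norm_sq, Complex.normSq_apply]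
  generalize hx0 : x 0 = a
  generalize hx1 : x 1 = b
  generalize hx2 : x 2 = c
  fin_cases k <;>
  · simp [MM, Matrix.mulVec, dotProduct, Fin.sum_univ_three, hx0, hx1, hx2, ze']
    generalize √3 = s at *
    generalize a.re = a1
    generalize a.im = a2
    generalize b.re = b1
    generalize b.im = b2
    generalize c.re = c1
    generalize c.im = c2
    ring

/-- The basis `n₁, 2 c n₂, n₃`. -/
noncomputable def bas (n : Fin 3 → V) : Fin 3 → V := ![n 0, ((2 * cc : ℝ) : ℂ) • n 1, n 2]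

/-- The matrix with the columns `n₁, 2 c n₂, n₃`. -/
noncomputable def EE (n : Fin 3 → V) : Matrix (Fin 3) (Fin 3) ℂ := Matrix.of fun i j => bas n j i

/-- `⟨n₃, n₁⟩` for the arithmetic triangle -/
noncomputable def x0 : ℂ := ⟨(2 + √3) / 4, -1 / 4⟩

theorem x0_eq : x0 = (1 + conj ze) / 2 := by
  apply Complex.ext
  · simp [x0, ze]; ring
  · simp [x0, ze]; norm_num

theorem x0_conj : conj x0 = (1 + ze) / 2 := by
  rw [x0_eq]
  simp [Complex.conj_ofNat]

/-- The reflections in the basis `bas n`. -/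
theorem refl_EE {n : Fin 3 → V} (hu : ∀ k, herm (n k) (n k) = 1) (h01 : herm (n 0) (n 1) = cc)
    (h12 : herm (n 1) (n 2) = cc) (h20 : herm (n 2) (n 0) = x0) (k : Fin 3) :
    ((refl (n k) (hu k) : SpecialLinearGroup (Fin 3) ℂ) : Matrix (Fin 3) (Fin 3) ℂ) * EE n =
      EE n * MM ze (conj ze) ((2 + √3 : ℝ) : ℂ) k := by
  have h10 : herm (n 1) (n 0) = cc := by rw [← herm_conj, h01, conj_ofReal]
  have h21 : herm (n 2) (n 1) = cc := by rw [← herm_conj, h12, conj_ofReal]
  have h02 : herm (n 0) (n 2) = (1 + ze) / 2 := by rw [← herm_conj, h20, x0_conj]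
  rw [x0_eq] at h20
  have hc : (cc : ℂ) ^ 2 = (2 + ((√3 : ℝ) : ℂ)) / 4 := by exact_mod_cast cc_sq
  have key : ∀ j, R (n k) (bas n j) =
      ∑ i, MM ze (conj ze) ((2 + √3 : ℝ) : ℂ) k i j • bas n i := by
    intro j
    ext l
    fin_cases k <;> fin_cases j <;>
    · simp only [Fin.sum_univ_three, bas, R, MM, Fin.zero_eta, Fin.mk_one, Fin.reduceFinMk,
        cons_val_zero, cons_val_one, cons_val, of_apply, herm_smul_left, hu, h01, h12, h20, h10,
        h21, h02, Pi.add_apply, Pi.neg_apply, Pi.smul_apply, smul_eq_mul]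
      push_cast
      first
        | ring1
        | linear_combination (4 * n 0 l) * hc
        | linear_combination (4 * n 2 l) * hc
  have e : ∀ A : SpecialLinearGroup (Fin 3) ℂ, (∀ j, app A (bas n j) =
      ∑ i, MM ze (conj ze) ((2 + √3 : ℝ) : ℂ) k i j • bas n i) →
      (A : Matrix (Fin 3) (Fin 3) ℂ) * EE n = EE n * MM ze (conj ze) ((2 + √3 : ℝ) : ℂ) k := by
    intro A hA
    ext i j
    have h1 := congrFun (hA j) i
    rw [Matrix.mul_apply, Matrix.mul_apply]
    simp only [Finset.sum_apply, Pi.smul_apply, smul_eq_mul, app, Matrix.mulVec, dotProduct] at h1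
    simp only [EE, Matrix.of_apply]
    rw [h1]
    exact Finset.sum_congr rfl fun l _ => mul_comm _ _
  apply e
  intro j
  rw [app_refl, key]

theorem EE_det {n : Fin 3 → V} (hn : LinearIndependent ℂ n) : IsUnit (EE n).det := by
  have hb : LinearIndependent ℂ (bas n) := by
    rw [Fintype.linearIndependent_iff] at hn ⊢
    intro g hg
    have hcc : ((2 * cc : ℝ) : ℂ) ≠ 0 := by
      have := cc_pos
      exact_mod_cast (by positivity : (2 * cc : ℝ) ≠ 0)
    have h1 := hn ![g 0, g 1 * ((2 * cc : ℝ) : ℂ), g 2] (by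
      rw [Fin.sum_univ_three] at hg ⊢
      simp only [bas, cons_val_zero, cons_val_one, cons_val, smul_smul] at hg ⊢
      exact hg)
    intro i
    fin_cases i
    · simpa using h1 0
    · have := h1 1
      simp only [cons_val_one, cons_val_zero] at this
      rcases mul_eq_zero.1 this with h | h
      · exact h
      · exact absurd h hcc
    · simpa using h1 2
  have h2 : IsUnit (EE n)ᵀ := by
    rw [← Matrix.linearIndependent_rows_iff_isUnit]
    exact hb
  rw [Matrix.isUnit_iff_isUnit_det, Matrix.det_transpose] at h2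
  exact h2

/-- The group generated by the three reflections. -/
def G0 (n : Fin 3 → V) (hu : ∀ k, herm (n k) (n k) = 1) : Subgroup SU21 :=
  Subgroup.closure (Set.range fun k => refl (n k) (hu k))

theorem G0_mat {n : Fin 3 → V} (hu : ∀ k, herm (n k) (n k) = 1) (h01 : herm (n 0) (n 1) = cc)
    (h12 : herm (n 1) (n 2) = cc) (h20 : herm (n 2) (n 0) = x0) (g : SU21) (hg : g ∈ G0 n hu) :
    ∃ M M' : Matrix (Fin 3) (Fin 3) ℂ, (∀ i j, Lam (M i j) (M' i j)) ∧
      ((g : SpecialLinearGroup (Fin 3) ℂ) : Matrix (Fin 3) (Fin 3) ℂ) * EE n = EE n * M ∧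
      ∀ x, Q' (M' *ᵥ x) = Q' x := by
  have step : ∀ (g : SU21) (k : Fin 3), (∃ M M' : Matrix (Fin 3) (Fin 3) ℂ,
      (∀ i j, Lam (M i j) (M' i j)) ∧
      ((g : SpecialLinearGroup (Fin 3) ℂ) : Matrix (Fin 3) (Fin 3) ℂ) * EE n = EE n * M ∧
      ∀ x, Q' (M' *ᵥ x) = Q' x) → (∃ M M' : Matrix (Fin 3) (Fin 3) ℂ,
      (∀ i j, Lam (M i j) (M' i j)) ∧
      (((g * refl (n k) (hu k) : SU21) : SpecialLinearGroup (Fin 3) ℂ) :
        Matrix (Fin 3) (Fin 3) ℂ) * EE n = EE n * M ∧
      ∀ x, Q' (M' *ᵥ x) = Q' x) := by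
    rintro g k ⟨M, M', h1, h2, h3⟩
    refine ⟨M * MM ze (conj ze) ((2 + √3 : ℝ) : ℂ) k, M' * MM ze' (conj ze') ((2 - √3 : ℝ) : ℂ) k,
      ?_, ?_, ?_⟩
    · intro i j
      rw [Matrix.mul_apply, Matrix.mul_apply]
      exact Lam.sum fun l => (h1 i l).mul (Lam_MM k l j)
    · rw [Subgroup.coe_mul, Matrix.SpecialLinearGroup.coe_mul, Matrix.mul_assoc,
        refl_EE hu h01 h12 h20 k, ← Matrix.mul_assoc, h2, Matrix.mul_assoc]
    · intro x
      rw [← Matrix.mulVec_mulVec, h3, Q'_MM]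
  have inv_eq : ∀ k, (refl (n k) (hu k))⁻¹ = refl (n k) (hu k) := by
    intro k
    exact inv_eq_of_mul_eq_one_right (refl_mul_self _ _)
  unfold G0 at hg
  induction hg using Subgroup.closure_induction_right with
  | one =>
    refine ⟨1, 1, ?_, ?_, ?_⟩
    · intro i j
      by_cases h : i = j
      · subst h; simpa using Lam.one
      · simpa [Matrix.one_apply_ne h] using Lam.zero
    · simp
    · simp
  | mul_right x hx y hy ih =>
    obtain ⟨k, rfl⟩ := hy
    exact step x k ih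
  | mul_inv_cancel x hx y hy ih =>
    obtain ⟨k, rfl⟩ := hy
    simp only [inv_eq]
    exact step x k ih

end Pool.Agent.K3h67.CHT
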