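import Pool.Agent.K3h67.CHT.Tri

/-!
# The triple `(12,12,12)` has type B
-/

set_option autoImplicit false

namespace Pool.Agent.K3h67.CHT

open Matrix Complex ComplexConjugate

/-- An eigenvector of the product of three reflections. -/
theorem eig_of_rows {n : Fin 3 → V} (hu : ∀ k, herm (n k) (n k) = 1) (l p q r : ℂ)
    (h1 : (l - 1) * p + 2 * herm (n 1) (n 2) * q - 2 * herm (n 0) (n 2) * r = 0)
    (h2 : -2 * l * herm (n 2) (n 1) * p + (l - 1) * q + 2 * herm (n 0) (n 1) * r = 0)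
    (h3 : 2 * l * herm (n 2) (n 0) * p - 2 * l * herm (n 1) (n 0) * q + (l - 1) * r = 0) :
    R (n 0) (R (n 1) (R (n 2) (p • n 2 - q • n 1 + r • n 0))) =
      l • (p • n 2 - q • n 1 + r • n 0) := by
  have e1 : R (n 2) (p • n 2 - q • n 1 + r • n 0) = (l * p) • n 2 + q • n 1 - r • n 0 := by
    unfold R
    rw [herm_add_left, herm_sub_left, herm_smul_left, herm_smul_left, herm_smul_left, hu]
    ext i
    simp only [Pi.add_apply, Pi.neg_apply, Pi.smul_apply, smul_eq_mul, Pi.sub_apply]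
    linear_combination -(n 2 i) * h1
  have e2 : R (n 1) ((l * p) • n 2 + q • n 1 - r • n 0) =
      -((l * p) • n 2) + (l * q) • n 1 + r • n 0 := by
    unfold R
    rw [herm_sub_left, herm_add_left, herm_smul_left, herm_smul_left, herm_smul_left, hu]
    ext i
    simp only [Pi.add_apply, Pi.neg_apply, Pi.smul_apply, smul_eq_mul, Pi.sub_apply]
    linear_combination -(n 1 i) * h2
  have e3 : R (n 0) (-((l * p) • n 2) + (l * q) • n 1 + r • n 0) =
      l • (p • n 2 - q • n 1 + r • n 0) := by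
    unfold R
    rw [herm_add_left, herm_add_left, herm_neg_left, herm_smul_left, herm_smul_left,
      herm_smul_left, hu]
    ext i
    simp only [Pi.add_apply, Pi.neg_apply, Pi.smul_apply, smul_eq_mul, Pi.sub_apply]
    linear_combination -(n 0 i) * h3
  rw [e1, e2, e3]

/-- `√(6 √3 - 4)` -/
noncomputable def dd : ℝ := √(6 * √3 - 4)

theorem dd_sq : dd ^ 2 = 6 * √3 - 4 := by
  have := s3_lo
  exact Real.sq_sqrt (by linarith)

theorem dd_pos : 0 < dd := by
  have := s3_lo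
  exact Real.sqrt_pos.2 (by linarith)

theorem dd_lo : 2.528 < dd := by
  have := s3_lo
  apply Real.lt_sqrt_of_sq_lt
  nlinarith

theorem dd_hi : dd < 2.529 := by
  have := s3_hi
  unfold dd
  rw [Real.sqrt_lt' (by norm_num)]
  nlinarith

/-- `⟨n₃, n₁⟩` for the triangle for which `W_B` has the eigenvalue `exp (2 π i / 3)` -/
noncomputable def x2 : ℂ :=
  ⟨(9 * √3 - 9 + (2 - √3) * dd) / 8, -(9 - 3 * √3 - (2 * √3 - 3) * dd) / 8⟩

theorem x2_norm : ‖x2‖ ^ 2 = (2 + √3) / 4 := by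
  rw [← Complex.normSq_eq_norm_sq, Complex.normSq_apply]
  have hs := s3_sq
  have hd := dd_sq
  simp only [x2]
  generalize √3 = s at *
  generalize dd = d at *
  grind

theorem x2_re : 2 * (2 + √3) / 4 * x2.re < 3 * ((2 + √3) / 4) - 1 := by
  have hs := s3_sq
  have h1 := dd_hi
  have h2 := s3_lo
  have e : 2 * (2 + √3) / 4 * x2.re = (9 + 9 * √3 + dd) / 16 := by
    simp only [x2]
    linear_combination ((9 - dd) / 16) * hs
  rw [e]
  linarith

/-- The negative eigenvector of `W_B`. -/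
theorem WB_fix {n : Fin 3 → V} (hu : ∀ k, herm (n k) (n k) = 1) (h01 : herm (n 0) (n 1) = cc)
    (h12 : herm (n 1) (n 2) = cc) (h20 : herm (n 2) (n 0) = x2) :
    ∃ v : V, (herm v v).re < 0 ∧ ∃ l : ℂ, R (n 0) (R (n 1) (R (n 2) v)) = l • v := by
  have h10 : herm (n 1) (n 0) = cc := by rw [← herm_conj, h01, conj_ofReal]
  have h21 : herm (n 2) (n 1) = cc := by rw [← herm_conj, h12, conj_ofReal]
  have h02 : herm (n 0) (n 2) = conj x2 := by rw [← herm_conj, h20]
  have hs := s3_sq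
  have hd := dd_sq
  have hc := cc_sq
  have hsC : ((√3 : ℝ) : ℂ) ^ 2 = 3 := by exact_mod_cast hs
  have hdC : (dd : ℂ) ^ 2 = 6 * ((√3 : ℝ) : ℂ) - 4 := by exact_mod_cast hd
  have hcC : (cc : ℂ) ^ 2 = (2 + ((√3 : ℝ) : ℂ)) / 4 := by exact_mod_cast hc
  have ex : x2 = ((9 * ((√3 : ℝ) : ℂ) - 9 + (2 - ((√3 : ℝ) : ℂ)) * dd)
      - I * (9 - 3 * ((√3 : ℝ) : ℂ) - (2 * ((√3 : ℝ) : ℂ) - 3) * dd)) / 8 := by
    apply Complex.ext
    · simp [x2]
    · simp [x2]
  have ex' : conj x2 = ((9 * ((√3 : ℝ) : ℂ) - 9 + (2 - ((√3 : ℝ) : ℂ)) * dd)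
      + I * (9 - 3 * ((√3 : ℝ) : ℂ) - (2 * ((√3 : ℝ) : ℂ) - 3) * dd)) / 8 := by
    rw [ex]
    simp [Complex.conj_ofNat]
  set w : ℂ := (-1 + ((√3 : ℝ) : ℂ) * I) / 2 with hw
  have hw' : conj w = (-1 - ((√3 : ℝ) : ℂ) * I) / 2 := by
    rw [hw]
    simp [Complex.conj_ofNat]
    ring
  set p : ℂ := 4 * (cc : ℂ) ^ 2 + 2 * conj x2 * (w - 1) with hp
  set q : ℂ := cc * (4 * w * conj x2 - 2 * (w - 1)) with hq
  set r : ℂ := w * (4 * (cc : ℂ) ^ 2 - 3) with hr
  have hp' : conj p = 4 * (cc : ℂ) ^ 2 + 2 * x2 * (conj w - 1) := by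
    rw [hp]
    simp [Complex.conj_ofNat]
  have hq' : conj q = cc * (4 * conj w * x2 - 2 * (conj w - 1)) := by
    rw [hq]
    simp [Complex.conj_ofNat]
  have hr' : conj r = conj w * (4 * (cc : ℂ) ^ 2 - 3) := by
    rw [hr]
    simp [Complex.conj_ofNat]
  have hI : I ^ 2 = -1 := I_sq
  refine ⟨p • n 2 - q • n 1 + r • n 0, ?_, w, ?_⟩
  · have e : herm (p • n 2 - q • n 1 + r • n 0) (p • n 2 - q • n 1 + r • n 0) =
        ((3 + dd / 4 - 3 * √3 / 2 - √3 * dd / 4 : ℝ) : ℂ) := by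
      simp only [herm_add_left, herm_add_right, herm_sub_left, herm_sub_right, herm_smul_left,
        herm_smul_right, hu, h01, h12, h20, h10, h21, h02, hp', hq', hr']
      rw [hp, hq, hr, hw', hw, ex', ex]
      push_cast
      generalize ((√3 : ℝ) : ℂ) = s at *
      generalize (dd : ℂ) = d at *
      generalize (cc : ℂ) = c at *
      generalize I = i at *
      clear hp hq hr hp' hq' hr' ex ex' hw hw'
      grind
    rw [e, ofReal_re]
    have h1 := dd_lo
    have h2 := s3_lo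
    nlinarith
  · apply eig_of_rows hu
    · rw [h12, h02, hp, hq, hr, hw, ex']
      generalize ((√3 : ℝ) : ℂ) = s at *
      generalize (dd : ℂ) = d at *
      generalize (cc : ℂ) = c at *
      generalize I = i at *
      clear hp hq hr hp' hq' hr' ex ex' hw hw'
      grind
    · rw [h21, h01, hp, hq, hr, hw, ex']
      generalize ((√3 : ℝ) : ℂ) = s at *
      generalize (dd : ℂ) = d at *
      generalize (cc : ℂ) = c at *
      generalize I = i at *
      clear hp hq hr hp' hq' hr' ex ex' hw hw'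
      grind
    · rw [h20, h10, hp, hq, hr, hw, ex', ex]
      generalize ((√3 : ℝ) : ℂ) = s at *
      generalize (dd : ℂ) = d at *
      generalize (cc : ℂ) = c at *
      generalize I = i at *
      clear hp hq hr hp' hq' hr' ex ex' hw hw'
      grind

theorem norm_tp {n : Fin 3 → V} (h : IsTriangle 12 12 12 n) : ‖tp n‖ = cc ^ 3 := by
  unfold tp
  rw [norm_mul, norm_mul, h.angle₁₂, h.angle₂₃, h.angle₃₁]
  unfold cc
  ring

theorem tp_ne {n : Fin 3 → V} (h : IsTriangle 12 12 12 n) : -tp n ≠ 0 := by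
  intro h0
  have h1 := norm_tp h
  have h2 := cc_pos
  rw [neg_eq_zero] at h0
  rw [h0, norm_zero] at h1
  have : 0 < cc ^ 3 := by positivity
  linarith

theorem cos_ang {n : Fin 3 → V} (h : IsTriangle 12 12 12 n) :
    Real.cos (ang n) = -(tp n).re / cc ^ 3 := by
  have e : ang n = Complex.arg (-tp n) := rfl
  rw [e, Complex.cos_arg (tp_ne h), norm_neg, norm_tp h]
  rfl

/-- If `W_A` is elliptic then the real part of the triple product is at least `5 (1 + √3) / 16`. -/
theorem re_of_WA {n : Fin 3 → V} {ρ : Gam 12 12 12 →* PU21} (h : IsTriangleRep 12 12 12 n ρ)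
    (hA : IsElliptic (ρ (WA 12 12 12))) : (5 + 5 * √3) / 16 ≤ (tp n).re := by
  rw [WA_eq h, elliptic_iff] at hA
  obtain ⟨v, hv, l, hl⟩ := hA
  rw [Subgroup.coe_mul, app_mul, app_refl, app_refl] at hl
  have h1 := norm_le_of_fix hv (h.tri.unit 0) (unit_R (h.tri.unit 1) (h.tri.unit 2)) hl
  have h2 := norm_WA h.tri
  have h3 : ‖herm (n 0) (R (n 1) (n 2))‖ ^ 2 ≤ 1 := by
    have := norm_nonneg (herm (n 0) (R (n 1) (n 2)))
    nlinarith
  have hs := s3_sq
  have e : (2 + √3) / 4 + 4 * ((2 + √3) / 4) ^ 2 = (9 + 5 * √3) / 4 := by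
    linear_combination (1 / 4) * hs
  rw [h2, e] at h3
  linarith

theorem elliptic_WB {n : Fin 3 → V} {ρ : Gam 12 12 12 →* PU21} (h : IsTriangleRep 12 12 12 n ρ)
    (h01 : herm (n 0) (n 1) = cc)
    (h12 : herm (n 1) (n 2) = cc) (h20 : herm (n 2) (n 0) = x2) :
    IsElliptic (ρ (WB 12 12 12)) := by
  rw [WB_eq h, elliptic_iff]
  obtain ⟨v, hv, l, hl⟩ := WB_fix h.tri.unit h01 h12 h20
  refine ⟨v, hv, l, ?_⟩
  rw [Subgroup.coe_mul, Subgroup.coe_mul, app_mul, app_mul, app_refl, app_refl, app_refl, hl]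

theorem typeB : TypeB 12 12 12 := by
  rintro ⟨n, ρ, h, h0, hA, hB⟩
  obtain ⟨n2, t2, e01, e12, e20⟩ := exists_tri x2 x2_norm x2_re
  obtain ⟨ρ2, r2, -⟩ := exists_rep t2
  have hs := s3_sq
  have hlo := s3_lo
  have hhi := s3_hi
  have dlo := dd_lo
  have dhi := dd_hi
  have hcp := cc_pos
  have etp : tp n2 = ((cc ^ 2 : ℝ) : ℂ) * x2 := by
    unfold tp
    rw [e01, e12, e20]
    push_cast
    ring
  have hre2 : (tp n2).re = (9 + 9 * √3 + dd) / 32 := by
    rw [etp, Complex.re_ofReal_mul, cc_sq]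
    simp only [x2]
    linear_combination ((9 - dd) / 32) * hs
  have him2 : (tp n2).im < 0 := by
    rw [etp, Complex.im_ofReal_mul]
    apply mul_neg_of_pos_of_neg (by positivity)
    simp only [x2]
    nlinarith
  have h2 : 0 ≤ ang n2 := by
    change 0 ≤ Complex.arg (-tp n2)
    rw [Complex.arg_nonneg_iff, Complex.neg_im]
    linarith
  have hre := re_of_WA h hA
  have hlt : ang n2 < ang n := by
    have hcos : Real.cos (ang n) < Real.cos (ang n2) := by
      rw [cos_ang h.tri, cos_ang t2]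
      apply div_lt_div_of_pos_right _ (by positivity)
      rw [hre2]
      linarith
    by_contra hcon
    push Not at hcon
    have h3 : ang n2 ≤ Real.pi := Complex.arg_le_pi _
    have := Real.cos_le_cos_of_nonneg_of_le_pi h0 h3 hcon
    linarith
  exact hB n2 ρ2 r2 h2 hlt.le (elliptic_WB r2 e01 e12 e20)

end Pool.Agent.K3h67.CHT
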