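import Pool.Agent.K3h67.CHT.Disc
import Pool.Agent.K3h67.CHT.TypeB

/-!
# The arithmetic `(12,12,12)` triangle group: discrete, infinite, not faithful
-/

set_option autoImplicit false

namespace Pool.Agent.K3h67.CHT

open Matrix Complex ComplexConjugate Topology

/-- The entries of `A`. -/
def ent (A : SU21) (i j : Fin 3) : ℂ :=
  ((A : SpecialLinearGroup (Fin 3) ℂ) : Matrix (Fin 3) (Fin 3) ℂ) i j

theorem ent_eq (A : SU21) (i j : Fin 3) : ent A i j = app A (Pi.single j 1) i := by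
  simp [ent, app]

theorem G0_finite {n : Fin 3 → V} (ht : IsTriangle 12 12 12 n) (h01 : herm (n 0) (n 1) = cc)
    (h12 : herm (n 1) (n 2) = cc) (h20 : herm (n 2) (n 0) = x0) :
    {g : SU21 | g ∈ G0 n ht.unit ∧ ∀ i j, ‖ent g i j‖ ≤ 2}.Finite := by
  have hdet := EE_det ht.indep
  set E := EE n with hE
  have hinv : E⁻¹ * E = 1 := Matrix.nonsing_inv_mul _ hdet
  -- a bound for the entries of `E⁻¹ g E`
  obtain ⟨B, hB⟩ : ∃ B : ℝ, ∀ g : SU21, (∀ i j, ‖ent g i j‖ ≤ 2) → ∀ i j,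
      ‖(E⁻¹ * ((g : SpecialLinearGroup (Fin 3) ℂ) : Matrix (Fin 3) (Fin 3) ℂ) * E) i j‖ ≤ B := by
    refine ⟨∑ i, ∑ j, ∑ l, (∑ k, ‖E⁻¹ i k‖ * 2) * ‖E l j‖, fun g hg i j => ?_⟩
    have h1 : ‖(E⁻¹ * ((g : SpecialLinearGroup (Fin 3) ℂ) : Matrix (Fin 3) (Fin 3) ℂ) * E) i j‖ ≤
        ∑ l, (∑ k, ‖E⁻¹ i k‖ * 2) * ‖E l j‖ := by
      rw [Matrix.mul_apply]
      refine (norm_sum_le _ _).trans (Finset.sum_le_sum fun l _ => ?_)
      rw [norm_mul]
      refine mul_le_mul_of_nonneg_right ?_ (norm_nonneg _)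
      rw [Matrix.mul_apply]
      refine (norm_sum_le _ _).trans (Finset.sum_le_sum fun k _ => ?_)
      rw [norm_mul]
      exact mul_le_mul_of_nonneg_left (hg k l) (norm_nonneg _)
    refine h1.trans ?_
    have h2 : ∀ i' j', 0 ≤ ∑ l, (∑ k, ‖E⁻¹ i' k‖ * 2) * ‖E l j'‖ := fun i' j' => by positivity
    refine (Finset.single_le_sum (f := fun j' => ∑ l, (∑ k, ‖E⁻¹ i k‖ * 2) * ‖E l j'‖)
      (fun j' _ => h2 i j') (Finset.mem_univ j)).trans ?_
    exact Finset.single_le_sum (f := fun i' => ∑ j', ∑ l, (∑ k, ‖E⁻¹ i' k‖ * 2) * ‖E l j'‖)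
      (fun i' _ => Finset.sum_nonneg fun j' _ => h2 i' j') (Finset.mem_univ i)
  have hf := Lam.finite B 3
  have hpi : {M : Matrix (Fin 3) (Fin 3) ℂ | ∀ i j, M i j ∈
      {z : ℂ | ∃ z', Lam z z' ∧ ‖z‖ ≤ B ∧ ‖z'‖ ≤ 3}}.Finite := by
    have h1 := Set.Finite.pi' (ι := Fin 3) (κ := fun _ => Fin 3 → ℂ)
      (t := fun _ => {r : Fin 3 → ℂ | ∀ j, r j ∈ {z : ℂ | ∃ z', Lam z z' ∧ ‖z‖ ≤ B ∧ ‖z'‖ ≤ 3}})
      (fun _ => Set.Finite.pi' fun _ => hf)
    exact h1
  have himg : ((fun g : SU21 =>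
      E⁻¹ * ((g : SpecialLinearGroup (Fin 3) ℂ) : Matrix (Fin 3) (Fin 3) ℂ) * E) ''
      {g : SU21 | g ∈ G0 n ht.unit ∧ ∀ i j, ‖ent g i j‖ ≤ 2}).Finite := by
    refine hpi.subset ?_
    rintro _ ⟨g, ⟨hg, hg2⟩, rfl⟩ i j
    obtain ⟨M, M', h1, h2, h3⟩ := G0_mat ht.unit h01 h12 h20 g hg
    have e : E⁻¹ * ((g : SpecialLinearGroup (Fin 3) ℂ) : Matrix (Fin 3) (Fin 3) ℂ) * E = M := by
      rw [Matrix.mul_assoc, h2, ← Matrix.mul_assoc, hinv, Matrix.one_mul]
    have hb := hB g hg2 i j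
    simp only [e] at hb ⊢
    refine ⟨M' i j, h1 i j, hb, ?_⟩
    have h4 := Q'_ge (M' *ᵥ (Pi.single j 1))
    rw [h3] at h4
    have h5 : ∀ l, (M' *ᵥ (Pi.single j 1 : V)) l = M' l j := by
      intro l; simp
    rw [h5, h5, h5] at h4
    have h6 : Q' (Pi.single j 1) ≤ 2 := by
      have hlo := s3_lo
      unfold Q'
      fin_cases j
      · simp
      · simp
        linarith
      · simp
    have h7 : ‖M' i j‖ ^ 2 ≤ ‖M' 0 j‖ ^ 2 + ‖M' 1 j‖ ^ 2 + ‖M' 2 j‖ ^ 2 := by
      fin_cases i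
      · simp only [Fin.zero_eta]
        nlinarith [sq_nonneg ‖M' 1 j‖, sq_nonneg ‖M' 2 j‖]
      · simp only [Fin.mk_one]
        nlinarith [sq_nonneg ‖M' 0 j‖, sq_nonneg ‖M' 2 j‖]
      · simp only [Fin.reduceFinMk]
        nlinarith [sq_nonneg ‖M' 0 j‖, sq_nonneg ‖M' 1 j‖]
    have h8 : ‖M' i j‖ ^ 2 ≤ 9 := by linarith
    nlinarith [norm_nonneg (M' i j)]
  refine Set.Finite.of_finite_image himg ?_
  rintro g - g' - h
  have h1 : ((g : SpecialLinearGroup (Fin 3) ℂ) : Matrix (Fin 3) (Fin 3) ℂ) =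
      ((g' : SpecialLinearGroup (Fin 3) ℂ) : Matrix (Fin 3) (Fin 3) ℂ) := by
    have hinv' : E * E⁻¹ = 1 := Matrix.mul_nonsing_inv _ hdet
    have h2 := congrArg (fun X => E * X * E⁻¹) h
    simp only [Matrix.mul_assoc, hinv', Matrix.mul_one] at h2
    simpa only [← Matrix.mul_assoc, hinv', Matrix.one_mul] using h2
  exact Subtype.ext (Subtype.ext h1)

/-- Every element of the image is the class of an element of `G0`. -/
theorem range_sub {n : Fin 3 → V} {ρ : Gam 12 12 12 →* PU21} (h : IsTriangleRep 12 12 12 n ρ)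
    (x : Gam 12 12 12) : ∃ g ∈ G0 n h.tri.unit, ρ x = (g : PU21) := by
  have hx : x ∈ (⊤ : Subgroup (Gam 12 12 12)) := trivial
  rw [← PresentedGroup.closure_range_of (rels 12 12 12)] at hx
  induction hx using Subgroup.closure_induction with
  | mem x hx =>
    obtain ⟨k, rfl⟩ := hx
    exact ⟨_, Subgroup.subset_closure ⟨k, rfl⟩, rep_eq h k⟩
  | one => exact ⟨1, one_mem _, by rw [map_one]; rfl⟩
  | mul x y _ _ ihx ihy =>
    obtain ⟨g, hg, e⟩ := ihx
    obtain ⟨g', hg', e'⟩ := ihy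
    exact ⟨g * g', mul_mem hg hg', by rw [map_mul, e, e']; rfl⟩
  | inv x _ ihx =>
    obtain ⟨g, hg, e⟩ := ihx
    exact ⟨g⁻¹, inv_mem hg, by rw [map_inv, e]; rfl⟩

theorem scalar_norm {A B : SU21} (c : ℂ) (h : ∀ v, app A v = c • app B v) : ‖c‖ = 1 := by
  have h1 : herm (app A ![1, 0, 0]) (app A ![1, 0, 0]) = 1 := by
    rw [A.2]; simp [herm]
  have h2 : herm (app B ![1, 0, 0]) (app B ![1, 0, 0]) = 1 := by
    rw [B.2]; simp [herm]
  rw [h, herm_smul_left, herm_smul_right, h2, mul_one, Complex.mul_conj,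
    Complex.normSq_eq_norm_sq] at h1
  have h3 : ‖c‖ ^ 2 = 1 := by exact_mod_cast h1
  nlinarith [norm_nonneg c]

instance : IsClosed (scalars : Set SU21) := by
  have hcont : ∀ i j, Continuous fun A : SU21 => ent A i j := by
    intro i j
    have h1 : Continuous fun A : SU21 =>
        ((A : SpecialLinearGroup (Fin 3) ℂ) : Matrix (Fin 3) (Fin 3) ℂ) :=
      continuous_subtype_val.comp continuous_subtype_val
    exact h1.matrix_elem i j
  have e : (scalars : Set SU21) = {A | (∀ i j, i ≠ j → ent A i j = 0) ∧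
      ∀ i j, ent A i i = ent A j j} := by
    ext A
    constructor
    · rintro ⟨c, hc⟩
      refine ⟨fun i j hij => ?_, fun i j => ?_⟩
      · rw [ent_eq, hc]
        simp [Pi.single_eq_of_ne hij]
      · rw [ent_eq, ent_eq, hc, hc]
        simp
    · rintro ⟨h1, h2⟩
      refine ⟨ent A 0 0, fun v => ?_⟩
      ext i
      simp only [app, Matrix.mulVec, dotProduct, Pi.smul_apply, smul_eq_mul]
      rw [Finset.sum_eq_single i]
      · rw [h2 0 i]; rfl
      · intro j _ hj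
        have := h1 i j (Ne.symm hj)
        unfold ent at this
        rw [this, zero_mul]
      · simp
  rw [e, Set.ofPred_and]
  refine IsClosed.inter ?_ ?_
  · simp only [Set.ofPred_forall]
    refine isClosed_iInter fun i => isClosed_iInter fun j => isClosed_iInter fun _ => ?_
    exact isClosed_eq (hcont i j) continuous_const
  · simp only [Set.ofPred_forall]
    refine isClosed_iInter fun i => isClosed_iInter fun j => ?_
    exact isClosed_eq (hcont i i) (hcont j j)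

/-- The image of the arithmetic `(12,12,12)` triangle group is discrete. -/
theorem discrete {n : Fin 3 → V} {ρ : Gam 12 12 12 →* PU21} (h : IsTriangleRep 12 12 12 n ρ)
    (h01 : herm (n 0) (n 1) = cc) (h12 : herm (n 1) (n 2) = cc)
    (h20 : herm (n 2) (n 0) = x0) : DiscreteTopology ρ.range := by
  have hcont : ∀ i j, Continuous fun A : SU21 => ent A i j := by
    intro i j
    have h1 : Continuous fun A : SU21 =>
        ((A : SpecialLinearGroup (Fin 3) ℂ) : Matrix (Fin 3) (Fin 3) ℂ) :=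
      continuous_subtype_val.comp continuous_subtype_val
    exact h1.matrix_elem i j
  set U : Set SU21 := {A | ∀ i j, ‖ent A i j‖ < 2} with hU
  have hUo : IsOpen U := by
    rw [hU]
    simp only [Set.ofPred_forall]
    refine isOpen_iInter_of_finite fun i => isOpen_iInter_of_finite fun j => ?_
    exact isOpen_lt (hcont i j).norm continuous_const
  set W : Set PU21 := (QuotientGroup.mk : SU21 → PU21) '' U with hW
  have hWo : IsOpen W := QuotientGroup.isOpenMap_coe U hUo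
  have h1W : (1 : PU21) ∈ W := by
    refine ⟨1, ?_, rfl⟩
    intro i j
    have : ent 1 i j = (1 : Matrix (Fin 3) (Fin 3) ℂ) i j := rfl
    rw [this]
    by_cases hij : i = j
    · subst hij; simp
    · rw [Matrix.one_apply_ne hij]; simp
  have hfin : (W ∩ (ρ.range : Set PU21)).Finite := by
    refine ((G0_finite h.tri h01 h12 h20).image (QuotientGroup.mk : SU21 → PU21)).subset ?_
    rintro γ ⟨⟨u, hu, rfl⟩, ⟨x, hx⟩⟩
    obtain ⟨g, hg, hg'⟩ := range_sub h x
    refine ⟨g, ⟨hg, fun i j => ?_⟩, ?_⟩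
    · obtain ⟨c, hc0, hc⟩ := app_of_class (A := g) (B := u) (by rw [← hg', hx])
      have hc1 := scalar_norm c hc
      have e : ent g i j = c * ent u i j := by
        rw [ent_eq, ent_eq, hc]; rfl
      rw [e, norm_mul, hc1, one_mul]
      exact (hu i j).le
    · rw [← hg', hx]
  -- the identity is isolated
  apply discreteTopology_of_isOpen_singleton_one
  have hF : ((W ∩ (ρ.range : Set PU21)) \ {1}).Finite := hfin.subset Set.sdiff_subset
  have hO : IsOpen (W \ ((W ∩ (ρ.range : Set PU21)) \ {1})) := hWo.sdiff hF.isClosed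
  refine ⟨_, hO, ?_⟩
  ext γ
  constructor
  · rintro ⟨h1, h2⟩
    by_contra h3
    apply h2
    refine ⟨⟨h1, γ.2⟩, ?_⟩
    intro h4
    apply h3
    exact Subtype.ext h4
  · intro h1
    rw [Set.mem_singleton_iff] at h1
    subst h1
    refine ⟨h1W, ?_⟩
    rintro ⟨-, h2⟩
    exact h2 rfl

end Pool.Agent.K3h67.CHT
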