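import Pool.Agent.K3h67.CHT.Defs

/-!
# The Hermitian form, reflections, and products of two reflections
-/

set_option autoImplicit false

namespace Pool.Agent.K3h67.CHT

open Matrix Complex ComplexConjugate

theorem herm_add_left (x y z : V) : herm (x + y) z = herm x z + herm y z := by
  simp only [herm, Pi.add_apply]; ring

theorem herm_add_right (x y z : V) : herm z (x + y) = herm z x + herm z y := by
  simp only [herm, Pi.add_apply, map_add]; ring

theorem herm_smul_left (c : ℂ) (x y : V) : herm (c • x) y = c * herm x y := by
  simp only [herm, Pi.smul_apply, smul_eq_mul]; ring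

theorem herm_smul_right (c : ℂ) (x y : V) : herm x (c • y) = conj c * herm x y := by
  simp only [herm, Pi.smul_apply, smul_eq_mul, map_mul]; ring

theorem herm_neg_left (x y : V) : herm (-x) y = -herm x y := by
  simp only [herm, Pi.neg_apply]; ring

theorem herm_neg_right (x y : V) : herm x (-y) = -herm x y := by
  simp only [herm, Pi.neg_apply, map_neg]; ring

theorem herm_sub_left (x y z : V) : herm (x - y) z = herm x z - herm y z := by
  rw [sub_eq_add_neg, herm_add_left, herm_neg_left]; ring

theorem herm_sub_right (x y z : V) : herm z (x - y) = herm z x - herm z y := by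
  rw [sub_eq_add_neg, herm_add_right, herm_neg_right]; ring

theorem herm_conj (x y : V) : conj (herm x y) = herm y x := by
  simp only [herm, map_sub, map_add, map_mul, conj_conj]; ring

theorem herm_self_im (x : V) : (herm x x).im = 0 := by
  have h := herm_conj x x
  have := congrArg Complex.im h
  simp only [conj_im] at this
  linarith

theorem herm_self_re (x : V) :
    (herm x x).re = ‖x 0‖ ^ 2 + ‖x 1‖ ^ 2 - ‖x 2‖ ^ 2 := by
  simp only [herm, Complex.mul_conj, Complex.normSq_eq_norm_sq]
  norm_cast

/-- The reflection map. -/
def R (n v : V) : V := -v + (2 * herm v n) • n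

theorem herm_R (n x y : V) (h : herm n n = 1) : herm (R n x) (R n y) = herm x y := by
  unfold R
  simp only [herm_add_left, herm_add_right, herm_neg_left, herm_neg_right, herm_smul_left,
    herm_smul_right, map_mul, herm_conj, h, Complex.conj_ofNat]
  ring

/-- The matrix of the reflection. -/
def reflMat (n : V) : Matrix (Fin 3) (Fin 3) ℂ :=
  !![-1 + 2 * n 0 * conj (n 0), 2 * n 0 * conj (n 1), -(2 * n 0 * conj (n 2));
     2 * n 1 * conj (n 0), -1 + 2 * n 1 * conj (n 1), -(2 * n 1 * conj (n 2));
     2 * n 2 * conj (n 0), 2 * n 2 * conj (n 1), -1 - 2 * n 2 * conj (n 2)]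

theorem reflMat_det (n : V) (h : herm n n = 1) : (reflMat n).det = 1 := by
  unfold herm at h
  rw [det_fin_three]
  simp only [reflMat, of_apply, cons_val', cons_val_zero, cons_val_one, cons_val_fin_one,
    cons_val_two, head_cons, tail_cons, head_fin_const, empty_val']
  linear_combination 2 * h

theorem reflMat_mulVec (n v : V) : reflMat n *ᵥ v = R n v := by
  ext i
  fin_cases i
  all_goals
    simp [reflMat, R, herm, Matrix.mulVec, dotProduct, Fin.sum_univ_three]
    ring

/-- The reflection as an element of `SU(2,1)`. -/
def refl (n : V) (h : herm n n = 1) : SU21 :=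
  ⟨⟨reflMat n, reflMat_det n h⟩, by
    intro x y
    have e : ∀ v, app (⟨reflMat n, reflMat_det n h⟩ : SpecialLinearGroup (Fin 3) ℂ) v = R n v := by
      intro v
      exact reflMat_mulVec n v
    rw [e, e, herm_R n x y h]⟩

theorem app_refl (n : V) (h : herm n n = 1) (v : V) : app (refl n h) v = R n v :=
  reflMat_mulVec n v

theorem SL_ext {A B : SpecialLinearGroup (Fin 3) ℂ} (h : ∀ v, app A v = app B v) : A = B := by
  apply Matrix.SpecialLinearGroup.ext
  intro i j
  have h1 := congrFun (h (Pi.single j 1)) i
  simpa [app] using h1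

theorem SU_ext {A B : SU21} (h : ∀ v, app A v = app B v) : A = B :=
  Subtype.ext (SL_ext h)

theorem R_R (n v : V) (h : herm n n = 1) : R n (R n v) = v := by
  unfold R
  rw [herm_add_left, herm_neg_left, herm_smul_left, h]
  ext i
  simp only [Pi.add_apply, Pi.neg_apply, Pi.smul_apply, smul_eq_mul]
  ring

theorem refl_mul_self (n : V) (h : herm n n = 1) : refl n h * refl n h = 1 := by
  apply SU_ext
  intro v
  rw [Subgroup.coe_mul, app_mul, app_refl, app_refl, R_R n v h]
  simp

end Pool.Agent.K3h67.CHT
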