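import Pool.Agent.K3h67.CHT.Fin

/-!
# The arithmetic `(12,12,12)` triangle group: infinite, not faithful, and `W_A` is elliptic
-/

set_option autoImplicit false

namespace Pool.Agent.K3h67.CHT

open Matrix Complex ComplexConjugate Topology

/-- If `|⟨m,n⟩| > 1` then no power of the product of the two reflections is scalar. -/
theorem pair_pow_not_scalar {m n : V} (hm : herm m m = 1) (hn : herm n n = 1)
    (h : 1 < ‖herm m n‖ ^ 2) (k : ℕ) (hk : 0 < k) : (refl m hm * refl n hn) ^ k ∉ scalars := by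
  rintro ⟨c, hc⟩
  set b : ℝ := 4 * ‖herm m n‖ ^ 2 - 2 with hb
  have hb2 : 2 < b := by rw [hb]; linarith
  have hd : 0 ≤ b ^ 2 - 4 := by nlinarith
  set l : ℝ := (b + √(b ^ 2 - 4)) / 2 with hl
  have hsq : √(b ^ 2 - 4) ^ 2 = b ^ 2 - 4 := Real.sq_sqrt hd
  have hl1 : 1 < l := by
    rw [hl]
    have := Real.sqrt_nonneg (b ^ 2 - 4)
    linarith
  have hq : l ^ 2 - b * l + 1 = 0 := by
    rw [hl]
    linear_combination (1 / 4) * hsq
  have e := herm_swap_mul m n
  have hqC : (l : ℂ) ^ 2 - (4 * ((‖herm m n‖ ^ 2 : ℝ) : ℂ) - 2) * l + 1 = 0 := by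
    have : ((l ^ 2 - b * l + 1 : ℝ) : ℂ) = 0 := by rw [hq]; simp
    rw [hb] at this
    push_cast at this ⊢
    linear_combination this
  set w : V := ((l : ℂ) + 1) • m - (2 * herm m n) • n with hw
  have hAw : R m (R n w) = (l : ℂ) • w := by
    rw [R_pair, hw]
    simp only [herm_sub_left, herm_smul_left, hm, hn]
    ext i
    simp only [Pi.add_apply, Pi.smul_apply, smul_eq_mul, Pi.sub_apply]
    rw [← e] at hqC
    linear_combination -(m i) * hqC
  have hpow : ∀ j : ℕ, app ((refl m hm * refl n hn) ^ j : SU21) w = ((l : ℂ) ^ j) • w := by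
    intro j
    induction j with
    | zero => simp
    | succ j ih =>
      rw [Subgroup.coe_pow] at ih ⊢
      rw [pow_succ, app_mul]
      have : app (refl m hm * refl n hn : SU21) w = (l : ℂ) • w := by
        rw [Subgroup.coe_mul, app_mul, app_refl, app_refl, hAw]
      rw [this, app_smul, ih, smul_smul, pow_succ, mul_comm]
  have hw0 : w ≠ 0 := by
    intro h0
    have h1 : herm w n = 0 := by rw [h0]; simp [herm]
    rw [hw, herm_sub_left, herm_smul_left, herm_smul_left, hn] at h1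
    have h2 : ((l : ℂ) - 1) * herm m n = 0 := by linear_combination h1
    rcases mul_eq_zero.1 h2 with h3 | h3
    · have : (l : ℂ) = 1 := by linear_combination h3
      have : l = 1 := by exact_mod_cast this
      linarith
    · rw [h3] at h
      simp at h
      linarith
  have h1 := hpow k
  rw [hc] at h1
  have h2 : (c - (l : ℂ) ^ k) • w = 0 := by rw [sub_smul, h1, sub_self]
  have h3 : c = (l : ℂ) ^ k := by
    rcases smul_eq_zero.1 h2 with h3 | h3
    · exact sub_eq_zero.1 h3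
    · exact absurd h3 hw0
  have h4 : ‖c‖ = 1 := by
    refine scalar_norm (A := (refl m hm * refl n hn) ^ k) (B := 1) c ?_
    intro v
    rw [hc]
    simp
  rw [h3, norm_pow, Complex.norm_real, Real.norm_eq_abs, abs_of_pos (by linarith)] at h4
  have := one_lt_pow₀ hl1 hk.ne'
  linarith

/-- If `|⟨m,n⟩| < 1` then there is a negative vector orthogonal to both. -/
theorem exists_neg {m n : V} (hm : herm m m = 1) (hn : herm n n = 1)
    (h : ‖herm m n‖ ^ 2 < 1) : ∃ v, (herm v v).re < 0 ∧ herm v m = 0 ∧ herm v n = 0 := by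
  refine ⟨![conj (m 1 * n 2 - m 2 * n 1), conj (m 2 * n 0 - m 0 * n 2),
    -conj (m 0 * n 1 - m 1 * n 0)], ?_, ?_, ?_⟩
  · have e : herm ![conj (m 1 * n 2 - m 2 * n 1), conj (m 2 * n 0 - m 0 * n 2),
        -conj (m 0 * n 1 - m 1 * n 0)] ![conj (m 1 * n 2 - m 2 * n 1), conj (m 2 * n 0 - m 0 * n 2),
        -conj (m 0 * n 1 - m 1 * n 0)] = herm n m * herm m n - herm m m * herm n n := by
      simp [herm]
      ring
    rw [e, herm_swap_mul, hm, hn]
    simp only [sub_re, ofReal_re, mul_one, one_re]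
    linarith
  · simp [herm]
    ring
  · simp [herm]
    ring

theorem WA_pow {n : Fin 3 → V} {ρ : Gam 12 12 12 →* PU21} (h : IsTriangleRep 12 12 12 n ρ)
    (hx : ‖herm (n 0) (R (n 1) (n 2))‖ ^ 2 = (2 + √3) / 4) :
    ρ (WA 12 12 12) ^ 12 = 1 ∧ IsElliptic (ρ (WA 12 12 12)) := by
  rw [WA_eq h]
  constructor
  · rw [← QuotientGroup.mk_pow, pair_pow12 _ _ hx]; rfl
  · rw [elliptic_iff]
    have hhi := s3_hi
    obtain ⟨v, hv, h1, h2⟩ := exists_neg (h.tri.unit 0)
      (unit_R (h.tri.unit 1) (h.tri.unit 2)) (by rw [hx]; linarith)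
    refine ⟨v, hv, 1, ?_⟩
    rw [Subgroup.coe_mul, app_mul, app_refl, app_refl, R_pair, h1, h2]
    simp

/-- `W_A` has infinite order in `Γ(12,12,12)`. -/
theorem WA_pow_ne (k : ℕ) (hk : 0 < k) : WA 12 12 12 ^ k ≠ 1 := by
  intro h0
  obtain ⟨n2, t2, e01, e12, e20⟩ := exists_tri x2 x2_norm x2_re
  obtain ⟨ρ2, r2, -⟩ := exists_rep t2
  have hs := s3_sq
  have dhi := dd_hi
  have hlo := s3_lo
  have h1 := congrArg ρ2 h0
  rw [map_pow, map_one, WA_eq r2, ← QuotientGroup.mk_pow] at h1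
  have h2 := (QuotientGroup.eq_one_iff _).1 h1
  refine pair_pow_not_scalar _ _ ?_ k hk h2
  rw [norm_WA t2]
  have etp : tp n2 = ((cc ^ 2 : ℝ) : ℂ) * x2 := by
    unfold tp
    rw [e01, e12, e20]
    push_cast
    ring
  have hre2 : (tp n2).re = (9 + 9 * √3 + dd) / 32 := by
    rw [etp, Complex.re_ofReal_mul, cc_sq]
    simp only [x2]
    linear_combination ((9 - dd) / 32) * hs
  rw [hre2]
  nlinarith

theorem x0_norm : ‖x0‖ ^ 2 = (2 + √3) / 4 := by
  have hs := s3_sq
  rw [← Complex.normSq_eq_norm_sq, Complex.normSq_apply]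
  simp only [x0]
  linear_combination (1 / 16) * hs

theorem x0_re : 2 * (2 + √3) / 4 * x0.re < 3 * ((2 + √3) / 4) - 1 := by
  have hs := s3_sq
  have hlo := s3_lo
  simp only [x0]
  nlinarith

theorem ang_eq {n : Fin 3 → V} (h01 : herm (n 0) (n 1) = cc) (h12 : herm (n 1) (n 2) = cc)
    (h20 : herm (n 2) (n 0) = x0) : ang n = 11 * Real.pi / 12 := by
  have hs := s3_sq
  have hcp := cc_pos
  have hc := cc_sq
  have hsin : cc * Real.sin (Real.pi / 12) = 1 / 4 := by
    have h1 := Real.sin_two_mul (Real.pi / 12)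
    have h2 : 2 * (Real.pi / 12) = Real.pi / 6 := by ring
    rw [h2, Real.sin_pi_div_six] at h1
    have h3 : Real.cos (Real.pi / 12) = cc := by unfold cc; norm_num
    rw [h3] at h1
    linarith
  have hcos : Real.cos (Real.pi / 12) = cc := by unfold cc; norm_num
  have e : -(herm (n 0) (n 1) * herm (n 1) (n 2) * herm (n 2) (n 0)) =
      ((cc ^ 3 : ℝ) : ℂ) * (Complex.cos ((11 * Real.pi / 12 : ℝ) : ℂ) +
        Complex.sin ((11 * Real.pi / 12 : ℝ) : ℂ) * I) := by
    rw [h01, h12, h20]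
    have a1 : Real.cos (11 * Real.pi / 12) = -cc := by
      rw [show 11 * Real.pi / 12 = Real.pi - Real.pi / 12 by ring, Real.cos_pi_sub, hcos]
    have a2 : Real.sin (11 * Real.pi / 12) = Real.sin (Real.pi / 12) := by
      rw [show 11 * Real.pi / 12 = Real.pi - Real.pi / 12 by ring, Real.sin_pi_sub]
    rw [← Complex.ofReal_cos, ← Complex.ofReal_sin, a1, a2]
    have hx : x0 = (cc : ℂ) * (cc - (Real.sin (Real.pi / 12) : ℂ) * I) := by
      generalize Real.sin (Real.pi / 12) = sn at hsin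
      apply Complex.ext
      · simp [x0]
        linear_combination -hc
      · simp [x0]
        linear_combination hsin
    rw [hx]
    push_cast
    ring
  unfold ang
  rw [e]
  have hpi := Real.pi_pos
  exact Complex.arg_mul_cos_add_sin_mul_I (by positivity) ⟨by linarith, by linarith⟩

/-- **Main theorem.** -/
theorem main : TypeB 12 12 12 ∧
    ∃ (n : Fin 3 → V) (ρ : Gam 12 12 12 →* PU21), IsTriangleRep 12 12 12 n ρ ∧
      ang n = 11 * Real.pi / 12 ∧
      DiscreteTopology ρ.range ∧ Infinite ρ.range ∧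
      IsElliptic (ρ (WA 12 12 12)) ∧ ρ (WA 12 12 12) ^ 12 = 1 ∧
      (∀ k : ℕ, 0 < k → WA 12 12 12 ^ k ≠ 1) ∧ ¬ Function.Injective ρ := by
  obtain ⟨n, ht, e01, e12, e20⟩ := exists_tri x0 x0_norm x0_re
  obtain ⟨ρ, hρ, hk⟩ := exists_rep ht
  have hs := s3_sq
  have hlo := s3_lo
  have hc := cc_sq
  have etp : tp n = ((cc ^ 2 : ℝ) : ℂ) * x0 := by
    unfold tp
    rw [e01, e12, e20]
    push_cast
    ring
  have hre : (tp n).re = (7 + 4 * √3) / 16 := by
    rw [etp, Complex.re_ofReal_mul, cc_sq]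
    simp only [x0]
    linear_combination (1 / 16) * hs
  have hWA : ‖herm (n 0) (R (n 1) (n 2))‖ ^ 2 = (2 + √3) / 4 := by
    rw [norm_WA ht, hre]
    linear_combination (1 / 4) * hs
  obtain ⟨hA1, hA2⟩ := WA_pow hρ hWA
  refine ⟨typeB, n, ρ, hρ, ang_eq e01 e12 e20, discrete hρ e01 e12 e20, ?_, hA2, hA1, WA_pow_ne, ?_⟩
  · -- the image is infinite
    have h10 : herm (n 1) (n 0) = cc := by rw [← herm_conj, e01, conj_ofReal]
    have h21 : herm (n 2) (n 1) = cc := by rw [← herm_conj, e12, conj_ofReal]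
    have h02 : herm (n 0) (n 2) = conj x0 := by rw [← herm_conj, e20]
    have hu2 := unit_R (ht.unit 2) (ht.unit 0)
    have hu1 := unit_R (ht.unit 1) hu2
    have e : herm (n 0) (R (n 1) (R (n 2) (n 0))) = 1 - 4 * cc ^ 2 + 4 * cc ^ 2 * x0 := by
      have hx : x0 * conj x0 = ((cc ^ 2 : ℝ) : ℂ) := by
        rw [Complex.mul_conj, Complex.normSq_eq_norm_sq, x0_norm, hc]
      unfold R
      simp only [herm_add_right, herm_neg_right, herm_smul_right, herm_add_left, herm_neg_left,
        herm_smul_left, ht.unit, e01, h21, h02, map_mul, map_add, map_neg,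
        conj_ofReal, Complex.conj_ofNat, conj_conj]
      push_cast at hx
      linear_combination (-2 : ℂ) * hx
    have hn : 1 < ‖herm (n 0) (R (n 1) (R (n 2) (n 0)))‖ ^ 2 := by
      have hcC : (cc : ℂ) ^ 2 = (((2 + √3) / 4 : ℝ) : ℂ) := by exact_mod_cast hc
      rw [e, hcC, ← Complex.normSq_eq_norm_sq, Complex.normSq_apply]
      simp [x0]
      nlinarith
    by_contra hinf
    rw [not_infinite_iff_finite] at hinf
    set A : SU21 := refl (n 0) (ht.unit 0) * refl (R (n 1) (R (n 2) (n 0))) hu1 with hA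
    have hmem : ((A : SU21) : PU21) ∈ ρ.range := by
      refine ⟨sig 0 * (sig 1 * (sig 2 * sig 0 * sig 2) * sig 1), ?_⟩
      rw [map_mul, map_mul, map_mul, map_mul, map_mul, hk, hk, hk, hA,
        ← refl_conj (ht.unit 1) hu2, ← refl_conj (ht.unit 2) (ht.unit 0)]
      rfl
    obtain ⟨k, hk0, hk1⟩ := (isOfFinOrder_of_finite (⟨(A : PU21), hmem⟩ : ρ.range)).exists_pow_eq_one
    have h1 : (A : PU21) ^ k = 1 := by
      have := congrArg Subtype.val hk1
      simpa using this
    rw [← QuotientGroup.mk_pow] at h1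
    exact pair_pow_not_scalar _ _ hn k hk0 ((QuotientGroup.eq_one_iff _).1 h1)
  · intro hinj
    refine WA_pow_ne 12 (by norm_num) (hinj ?_)
    rw [map_pow, hA1, map_one]

end Pool.Agent.K3h67.CHT
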