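import Pool.Agent.K3h67.CHT.Form

/-!
# Products of two reflections
-/

set_option autoImplicit false

namespace Pool.Agent.K3h67.CHT

open Matrix Complex ComplexConjugate

theorem R_pair (m n v : V) :
    R m (R n v) = v + (4 * herm v n * herm n m - 2 * herm v m) • m - (2 * herm v n) • n := by
  unfold R
  rw [herm_add_left, herm_neg_left, herm_smul_left]
  ext i
  simp only [Pi.add_apply, Pi.neg_apply, Pi.smul_apply, smul_eq_mul, Pi.sub_apply]
  ring

/-- vectors orthogonal to a negative vector are not negative -/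
theorem orth_nonneg {v x : V} (hv : (herm v v).re < 0) (hx : herm x v = 0) :
    0 ≤ (herm x x).re := by
  rw [herm_self_re] at hv ⊢
  have h1 : x 2 * conj (v 2) = x 0 * conj (v 0) + x 1 * conj (v 1) := by
    unfold herm at hx
    linear_combination -hx
  have h2 : ‖x 2‖ * ‖v 2‖ ≤ ‖x 0‖ * ‖v 0‖ + ‖x 1‖ * ‖v 1‖ := by
    calc ‖x 2‖ * ‖v 2‖ = ‖x 2 * conj (v 2)‖ := by rw [norm_mul, Complex.norm_conj]
      _ = ‖x 0 * conj (v 0) + x 1 * conj (v 1)‖ := by rw [h1]
      _ ≤ ‖x 0 * conj (v 0)‖ + ‖x 1 * conj (v 1)‖ := norm_add_le _ _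
      _ = _ := by rw [norm_mul, norm_mul, Complex.norm_conj, Complex.norm_conj]
  generalize ‖x 0‖ = a at *
  generalize ‖x 1‖ = b at *
  have h3 : 0 ≤ ‖x 2‖ * ‖v 2‖ := by positivity
  have hc : 0 ≤ ‖x 2‖ := norm_nonneg _
  have hp : 0 ≤ ‖v 2‖ := norm_nonneg _
  generalize ‖x 2‖ = c at *
  generalize ‖v 0‖ = p at *
  generalize ‖v 1‖ = q at *
  generalize ‖v 2‖ = r at *
  have h4 : (c * r) ^ 2 ≤ (a ^ 2 + b ^ 2) * (p ^ 2 + q ^ 2) := by
    calc (c * r) ^ 2 ≤ (a * p + b * q) ^ 2 := pow_le_pow_left₀ h3 h2 2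
      _ ≤ _ := by nlinarith [sq_nonneg (a * q - b * p)]
  by_contra hneg
  push Not at hneg
  have hr : 0 < r ^ 2 := by nlinarith [sq_nonneg p, sq_nonneg q]
  have h5 : (a ^ 2 + b ^ 2) * (p ^ 2 + q ^ 2) ≤ (a ^ 2 + b ^ 2) * r ^ 2 :=
    mul_le_mul_of_nonneg_left (by linarith) (by positivity)
  have h6 : (a ^ 2 + b ^ 2) * r ^ 2 < c ^ 2 * r ^ 2 :=
    mul_lt_mul_of_pos_right (by linarith) hr
  nlinarith

theorem herm_swap_mul (m n : V) : herm n m * herm m n = ((‖herm m n‖ ^ 2 : ℝ) : ℂ) := by
  rw [← herm_conj m n, mul_comm, Complex.mul_conj, Complex.normSq_eq_norm_sq]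

/-- Cauchy-Schwarz in the orthogonal complement of a negative vector -/
theorem cs_orth {v m n : V} (hv : (herm v v).re < 0) (hm : herm m m = 1) (hn : herm n n = 1)
    (h1 : herm v m = 0) (h2 : herm v n = 0) : ‖herm m n‖ ≤ 1 := by
  have h1' : herm m v = 0 := by rw [← herm_conj, h1, map_zero]
  have h2' : herm n v = 0 := by rw [← herm_conj, h2, map_zero]
  have h3 : herm (m - herm m n • n) v = 0 := by
    rw [herm_sub_left, herm_smul_left, h1', h2']; ring
  have h4 := orth_nonneg hv h3
  have h5 : herm (m - herm m n • n) (m - herm m n • n) = 1 - ((‖herm m n‖ ^ 2 : ℝ) : ℂ) := by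
    rw [← herm_swap_mul]
    simp only [herm_sub_left, herm_sub_right, herm_smul_left, herm_smul_right, hm, hn, herm_conj]
    ring
  rw [h5] at h4
  simp only [sub_re, one_re, ofReal_re] at h4
  nlinarith [norm_nonneg (herm m n)]

/-- If the product of two reflections fixes a point, then `|⟨m,n⟩| ≤ 1`. -/
theorem norm_le_of_fix {v m n : V} {l : ℂ} (hv : (herm v v).re < 0) (hm : herm m m = 1)
    (hn : herm n n = 1) (h : R m (R n v) = l • v) : ‖herm m n‖ ≤ 1 := by
  have hl : l * conj l = 1 := by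
    have h1 := herm_R m (R n v) (R n v) hm
    rw [herm_R n v v hn, h, herm_smul_left, herm_smul_right] at h1
    have h2 : herm v v ≠ 0 := by
      intro h0
      rw [h0] at hv
      simp at hv
    have h3 : (l * conj l - 1) * herm v v = 0 := by linear_combination h1
    rcases mul_eq_zero.1 h3 with h4 | h4
    · linear_combination h4
    · exact absurd h4 h2
  have e := herm_swap_mul m n
  have ha : l * herm v n = (4 * ((‖herm m n‖ ^ 2 : ℝ) : ℂ) - 1) * herm v n
      - 2 * herm m n * herm v m := by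
    rw [← herm_smul_left, ← h, R_pair]
    simp only [herm_sub_left, herm_add_left, herm_smul_left, hn]
    linear_combination 4 * herm v n * e
  have hb : l * herm v m = 2 * herm n m * herm v n - herm v m := by
    rw [← herm_smul_left, ← h, R_pair]
    simp only [herm_sub_left, herm_add_left, herm_smul_left, hm]
    ring
  set κ : ℂ := ((‖herm m n‖ ^ 2 : ℝ) : ℂ) with hκ
  by_cases hα : herm v n = 0
  · by_cases hβ : herm v m = 0
    · exact cs_orth hv hm hn hβ hα
    · rw [hα] at ha
      have h1 : herm m n * herm v m = 0 := by linear_combination (1/2 : ℂ) * ha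
      rcases mul_eq_zero.1 h1 with h2 | h2
      · rw [h2]; simp
      · exact absurd h2 hβ
  · have h1 : (l ^ 2 + (2 - 4 * κ) * l + 1) * herm v n = 0 := by
      linear_combination (l + 1) * ha - 2 * herm m n * hb - 4 * herm v n * e
    have h2 : l ^ 2 + (2 - 4 * κ) * l + 1 = 0 := by
      rcases mul_eq_zero.1 h1 with h3 | h3
      · exact h3
      · exact absurd h3 hα
    have h3 : l + conj l = 4 * κ - 2 := by
      linear_combination conj l * h2 - (l + 2 - 4 * κ) * hl
    have h4 := congrArg Complex.re h3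
    have h5 : (4 * κ - 2).re = 4 * ‖herm m n‖ ^ 2 - 2 := by
      have h5' : κ.re = ‖herm m n‖ ^ 2 := by rw [hκ, ofReal_re]
      simp [h5']
    rw [h5] at h4
    simp only [add_re, conj_re] at h4
    have h6 : ‖l‖ ^ 2 = 1 := by
      have := congrArg Complex.re hl
      rw [Complex.mul_conj, Complex.normSq_eq_norm_sq, ofReal_re, one_re] at this
      exact this
    have h7 : ‖l‖ = 1 := by nlinarith [norm_nonneg l]
    have h8 := Complex.re_le_norm l
    nlinarith [norm_nonneg (herm m n)]

theorem pow12 (f : Module.End ℂ V) (s : ℂ) (hs : s ^ 2 = 3)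
    (h : ∀ v, f (f (f v)) - (1 + s) • f (f v) + (1 + s) • f v - v = 0) : f ^ 12 = 1 := by
  open Polynomial in
  have h1 : aeval f (X ^ 3 - C (1 + s) * X ^ 2 + C (1 + s) * X - 1 : ℂ[X]) = 0 := by
    refine LinearMap.ext fun v => ?_
    simp only [map_sub, map_add, map_mul, map_pow, aeval_X, aeval_C, map_one]
    have := h v
    simpa [pow_succ, Algebra.algebraMap_eq_smul_one, add_smul] using this
  have hS : (Polynomial.C s) ^ 2 = (3 : Polynomial ℂ) := by
    rw [← Polynomial.C_pow, hs]; rfl
  open Polynomial in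
  have h2 : (X ^ 12 - 1 : ℂ[X]) = (X ^ 3 - C (1 + s) * X ^ 2 + C (1 + s) * X - 1) *
      ((X + 1) * (X ^ 2 + 1) * (X ^ 2 + X + 1) * (X ^ 2 - X + 1) * (X ^ 2 + C s * X + 1)) := by
    rw [C_add, C_1]
    linear_combination (X ^ 2 * (X - 1) * (X + 1) * (X ^ 2 + 1) * (X ^ 2 + X + 1) *
      (X ^ 2 - X + 1)) * hS
  have h3 := congrArg (Polynomial.aeval f) h2
  rw [map_mul, h1, zero_mul, map_sub, map_pow, Polynomial.aeval_X, map_one] at h3
  exact sub_eq_zero.1 h3

theorem app_pow (A : SpecialLinearGroup (Fin 3) ℂ) (k : ℕ) (v : V) :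
    app (A ^ k) v = ((Matrix.mulVecLin (A : Matrix (Fin 3) (Fin 3) ℂ)) ^ k) v := by
  induction k generalizing v with
  | zero => simp
  | succ k ih =>
    rw [pow_succ, app_mul, ih, pow_succ, Module.End.mul_apply]
    rfl

/-- the product of two reflections whose mirrors meet at the angle `π / 12` has order `12` -/
theorem pair_pow12 {m n : V} (hm : herm m m = 1) (hn : herm n n = 1)
    (h : ‖herm m n‖ ^ 2 = (2 + √3) / 4) : (refl m hm * refl n hn) ^ 12 = 1 := by
  apply SU_ext
  intro v
  rw [Subgroup.coe_pow, app_pow]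
  rw [pow12 _ ((√3 : ℝ) : ℂ) (by norm_cast; rw [Real.sq_sqrt (by norm_num)])]
  · simp
  · intro w
    have e1 : ∀ w : V, (Matrix.mulVecLin (((refl m hm * refl n hn : SU21) :
        SpecialLinearGroup (Fin 3) ℂ) : Matrix (Fin 3) (Fin 3) ℂ)) w = R m (R n w) := by
      intro w
      change app (refl m hm * refl n hn) w = _
      rw [app_mul, app_refl, app_refl]
    have e := herm_swap_mul m n
    rw [h] at e
    push_cast at e
    rw [e1, e1, e1]
    simp only [R_pair, herm_sub_left, herm_add_left, herm_smul_left, hm, hn]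
    ext i
    simp only [Pi.sub_apply, Pi.add_apply, Pi.smul_apply, smul_eq_mul, Pi.zero_apply]
    generalize hS : ((√3 : ℝ) : ℂ) = s at *
    have hs : s ^ 2 = 3 := by
      rw [← hS]
      norm_cast; rw [Real.sq_sqrt (by norm_num)]
    generalize herm w n = α at *
    generalize herm w m = β at *
    generalize herm n m = g at *
    generalize herm m n = g' at *
    generalize w i = wi at *
    generalize m i = mi at *
    generalize n i = ni at *
    have hs2 : s = 4 * g * g' - 2 := by linear_combination -4 * e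
    rw [hs2]
    ring

end Pool.Agent.K3h67.CHT
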