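import Pool.Agent.K3h67.CHT.Pair

/-!
# Triangles of type `(12,12,12)`: existence, representations, the words `W_A` and `W_B`
-/

set_option autoImplicit false

namespace Pool.Agent.K3h67.CHT

open Matrix Complex ComplexConjugate

/-- `cos (π / 12)` -/
noncomputable def cc : ℝ := Real.cos (Real.pi / (12 : ℕ))

theorem cc_sq : cc ^ 2 = (2 + √3) / 4 := by
  unfold cc
  rw [Real.cos_sq]
  have : 2 * (Real.pi / (12 : ℕ)) = Real.pi / 6 := by push_cast; ring
  rw [this, Real.cos_pi_div_six]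
  ring

theorem cc_pos : 0 < cc := by
  unfold cc
  apply Real.cos_pos_of_mem_Ioo
  have := Real.pi_pos
  constructor
  · push_cast; linarith
  · push_cast; linarith

theorem s3_lo : (1.732 : ℝ) < √3 := by
  apply Real.lt_sqrt_of_sq_lt; norm_num

theorem s3_hi : √3 < (1.7321 : ℝ) := by
  rw [Real.sqrt_lt' (by norm_num)]; norm_num

theorem s3_sq : (√3 : ℝ) ^ 2 = 3 := Real.sq_sqrt (by norm_num)

/-- Existence of a `(12,12,12)` triangle with given Gram matrix. -/
theorem exists_tri (x : ℂ) (hx : ‖x‖ ^ 2 = (2 + √3) / 4)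
    (hre : 2 * (2 + √3) / 4 * x.re < 3 * ((2 + √3) / 4) - 1) :
    ∃ n : Fin 3 → V, IsTriangle 12 12 12 n ∧ herm (n 0) (n 1) = cc ∧ herm (n 1) (n 2) = cc ∧
      herm (n 2) (n 0) = x := by
  have hc := cc_sq
  have hs3 := s3_sq
  have hlo := s3_lo
  have hhi := s3_hi
  set s : ℝ := √(1 - cc ^ 2) with hs
  have hs2 : s ^ 2 = 1 - cc ^ 2 := Real.sq_sqrt (by rw [hc]; linarith)
  have hspos : 0 < s := Real.sqrt_pos.2 (by rw [hc]; linarith)
  set y : ℂ := cc * (1 - x) / s with hy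
  have hyn : ‖y‖ ^ 2 = cc ^ 2 * (1 - 2 * x.re + ‖x‖ ^ 2) / s ^ 2 := by
    rw [hy, norm_div, norm_mul, div_pow, mul_pow, Complex.norm_real, Complex.norm_real,
      Real.norm_eq_abs, Real.norm_eq_abs, sq_abs, sq_abs]
    have : ‖1 - x‖ ^ 2 = 1 - 2 * x.re + ‖x‖ ^ 2 := by
      rw [← Complex.normSq_eq_norm_sq, ← Complex.normSq_eq_norm_sq, Complex.normSq_apply,
        Complex.normSq_apply]
      simp
      ring
    rw [this]
  have hpos : 0 < ‖x‖ ^ 2 + ‖y‖ ^ 2 - 1 := by
    have h1 : (‖x‖ ^ 2 + ‖y‖ ^ 2 - 1) * s ^ 2 = 3 * cc ^ 2 - 1 - 2 * cc ^ 2 * x.re := by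
      rw [hyn]
      field_simp
      rw [hx, hs2, hc]
      ring_nf
      try rw [hs3]
      try ring
    have h2 : 0 < 3 * cc ^ 2 - 1 - 2 * cc ^ 2 * x.re := by rw [hc]; linarith
    rw [← h1] at h2
    exact (mul_pos_iff_of_pos_right (by positivity)).1 h2
  set z : ℝ := √(‖x‖ ^ 2 + ‖y‖ ^ 2 - 1) with hz
  have hz2 : z ^ 2 = ‖x‖ ^ 2 + ‖y‖ ^ 2 - 1 := Real.sq_sqrt hpos.le
  have hzpos : 0 < z := Real.sqrt_pos.2 hpos
  have hsC : (s : ℂ) ≠ 0 := by exact_mod_cast hspos.ne'
  have hzC : (z : ℂ) ≠ 0 := by exact_mod_cast hzpos.ne'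
  let n : Fin 3 → V := ![![1, 0, 0], ![(cc : ℂ), (s : ℂ), 0], ![x, y, (z : ℂ)]]
  have e01 : herm (n 0) (n 1) = cc := by
    simp [n, herm]
  have e12 : herm (n 1) (n 2) = cc := by
    simp only [n, herm]
    simp
    rw [hy]
    simp
    field_simp
    try ring
  have e20 : herm (n 2) (n 0) = x := by
    simp [n, herm]
  refine ⟨n, ⟨?_, ?_, ?_, ?_, ?_⟩, e01, e12, e20⟩
  · intro k
    fin_cases k
    · simp [n, herm]
    · simp only [n, herm]
      simp
      norm_cast
      linarith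
    · simp only [n, herm]
      simp [Complex.mul_conj, Complex.normSq_eq_norm_sq]
      norm_cast
      have hz3 : z * z = z ^ 2 := by ring
      rw [hz3, hz2]
      ring
  · rw [Fintype.linearIndependent_iff]
    intro g hg
    have h2 := congrFun hg 2
    have h1 := congrFun hg 1
    have h0 := congrFun hg 0
    simp [n, Fin.sum_univ_three] at h0 h1 h2
    have g2 : g 2 = 0 := by
      rcases h2 with h | h
      · exact h
      · exact absurd h hzpos.ne'
    rw [g2] at h1 h0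
    have g1 : g 1 = 0 := by
      simpa [hspos.ne'] using h1
    rw [g1] at h0
    have g0 : g 0 = 0 := by simpa using h0
    intro i
    fin_cases i
    · exact g0
    · exact g1
    · exact g2
  · rw [e01, Complex.norm_real, Real.norm_eq_abs, abs_of_pos cc_pos]; rfl
  · rw [e12, Complex.norm_real, Real.norm_eq_abs, abs_of_pos cc_pos]; rfl
  · rw [e20]
    have : ‖x‖ ^ 2 = cc ^ 2 := by rw [hx, hc]
    have h3 : ‖x‖ = cc := by
      have := cc_pos
      nlinarith [norm_nonneg x]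
    rw [h3]; rfl

theorem norm_sq_herm {n : Fin 3 → V} (h : IsTriangle 12 12 12 n) :
    ‖herm (n 0) (n 1)‖ ^ 2 = (2 + √3) / 4 ∧ ‖herm (n 1) (n 2)‖ ^ 2 = (2 + √3) / 4 ∧
      ‖herm (n 2) (n 0)‖ ^ 2 = (2 + √3) / 4 := by
  refine ⟨?_, ?_, ?_⟩
  · rw [h.angle₁₂]; exact cc_sq
  · rw [h.angle₂₃]; exact cc_sq
  · rw [h.angle₃₁]; exact cc_sq

/-- The representation of a `(12,12,12)` triangle. -/
theorem exists_rep {n : Fin 3 → V} (h : IsTriangle 12 12 12 n) :
    ∃ ρ : Gam 12 12 12 →* PU21, IsTriangleRep 12 12 12 n ρ ∧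
      ∀ k, ρ (sig k) = ((refl (n k) (h.unit k) : SU21) : PU21) := by
  let f : Fin 3 → PU21 := fun k => ((refl (n k) (h.unit k) : SU21) : PU21)
  obtain ⟨h1, h2, h3⟩ := norm_sq_herm h
  have hrel : ∀ r ∈ rels 12 12 12, FreeGroup.lift f r = 1 := by
    intro r hr
    simp only [rels, Set.mem_insert_iff, Set.mem_singleton_iff] at hr
    rcases hr with rfl | rfl | rfl | rfl | rfl | rfl
    · simp only [map_pow, FreeGroup.lift_apply_of, f]
      rw [pow_two, ← QuotientGroup.mk_mul, refl_mul_self]; rfl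
    · simp only [map_pow, FreeGroup.lift_apply_of, f]
      rw [pow_two, ← QuotientGroup.mk_mul, refl_mul_self]; rfl
    · simp only [map_pow, FreeGroup.lift_apply_of, f]
      rw [pow_two, ← QuotientGroup.mk_mul, refl_mul_self]; rfl
    · simp only [map_pow, map_mul, FreeGroup.lift_apply_of, f]
      rw [← QuotientGroup.mk_mul, ← QuotientGroup.mk_pow, pair_pow12 _ _ h1]; rfl
    · simp only [map_pow, map_mul, FreeGroup.lift_apply_of, f]
      rw [← QuotientGroup.mk_mul, ← QuotientGroup.mk_pow, pair_pow12 _ _ h2]; rfl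
    · simp only [map_pow, map_mul, FreeGroup.lift_apply_of, f]
      rw [← QuotientGroup.mk_mul, ← QuotientGroup.mk_pow, pair_pow12 _ _ h3]; rfl
  have hs : ∀ k, PresentedGroup.toGroup hrel (sig k) = f k := by
    intro k
    exact PresentedGroup.toGroup.of hrel
  refine ⟨PresentedGroup.toGroup hrel, ⟨h, fun k => ?_⟩, hs⟩
  rw [hs]
  refine ⟨refl (n k) (h.unit k), rfl, fun v => ?_⟩
  rw [app_refl, h.unit k, div_one]
  rfl

/-- Two elements of a class differ by a scalar. -/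
theorem app_of_class {A B : SU21} (h : (A : PU21) = B) : ∃ c : ℂ, c ≠ 0 ∧ ∀ v, app A v = c • app B v := by
  rw [QuotientGroup.eq] at h
  obtain ⟨c, hc⟩ := h
  have hB : ∀ v, app B v = c • app A v := by
    intro v
    have h1 := hc v
    have h2 : app A (app (A⁻¹ * B : SU21) v) = app B v := by
      rw [Subgroup.coe_mul, Subgroup.coe_inv, app_mul, app_inv_cancel]
    rw [← h2, h1, app_smul]
  have hc0 : c ≠ 0 := by
    rintro rfl
    have h1 := app_inv_cancel (B : SpecialLinearGroup (Fin 3) ℂ) (fun _ => 1)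
    rw [hB, zero_smul] at h1
    have := congrFun h1 0
    simp at this
  refine ⟨c⁻¹, inv_ne_zero hc0, fun v => ?_⟩
  rw [hB, smul_smul, inv_mul_cancel₀ hc0, one_smul]

/-- an elliptic class: every matrix of the class has a negative eigenvector -/
theorem elliptic_iff (B : SU21) :
    IsElliptic (B : PU21) ↔ ∃ v : V, (herm v v).re < 0 ∧ ∃ l : ℂ, app B v = l • v := by
  constructor
  · rintro ⟨A, hA, v, hv, l, hl⟩
    obtain ⟨c, hc, h⟩ := app_of_class hA
    refine ⟨v, hv, c⁻¹ * l, ?_⟩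
    have := h v
    rw [hl] at this
    rw [← smul_smul, this, smul_smul, inv_mul_cancel₀ hc, one_smul]
  · rintro ⟨v, hv, l, hl⟩
    exact ⟨B, rfl, v, hv, l, hl⟩

/-- the class of a reflection determines `ρ(σ_k)` -/
theorem rep_eq {p q r : ℕ} {n : Fin 3 → V} {ρ : Gam p q r →* PU21} (h : IsTriangleRep p q r n ρ)
    (k : Fin 3) : ρ (sig k) = ((refl (n k) (h.tri.unit k) : SU21) : PU21) := by
  obtain ⟨A, hA, hA'⟩ := h.refl k
  rw [← hA]
  congr 1
  apply SU_ext
  intro v
  rw [hA', app_refl, h.tri.unit k, div_one]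
  rfl

/-- the reflected vector -/
theorem unit_R {m n : V} (hm : herm m m = 1) (hn : herm n n = 1) : herm (R m n) (R m n) = 1 := by
  rw [herm_R m n n hm, hn]

theorem refl_conj {m n : V} (hm : herm m m = 1) (hn : herm n n = 1) :
    refl m hm * refl n hn * refl m hm = refl (R m n) (unit_R hm hn) := by
  apply SU_ext
  intro v
  rw [Subgroup.coe_mul, Subgroup.coe_mul, app_mul, app_mul, app_refl, app_refl, app_refl, app_refl]
  have e : herm (R m v) n = herm v (R m n) := by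
    rw [← herm_R m (R m v) n hm, R_R m v hm]
  have e2 : R m (R m v) = v := R_R m v hm
  have e3 : R n (R m v) = -(R m v) + (2 * herm v (R m n)) • n := by
    unfold R at e ⊢
    rw [e]
  rw [e3]
  have e4 : ∀ (a : ℂ) (x y : V), R m (-x + a • y) = -(R m x) + a • R m y := by
    intro a x y
    unfold R
    rw [herm_add_left, herm_neg_left, herm_smul_left]
    ext i
    simp only [Pi.add_apply, Pi.neg_apply, Pi.smul_apply, smul_eq_mul]
    ring
  rw [e4, e2]
  rfl

theorem WA_eq {n : Fin 3 → V} {ρ : Gam 12 12 12 →* PU21} (h : IsTriangleRep 12 12 12 n ρ) :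
    ρ (WA 12 12 12) = ((refl (n 0) (h.tri.unit 0) *
      refl (R (n 1) (n 2)) (unit_R (h.tri.unit 1) (h.tri.unit 2)) : SU21) : PU21) := by
  unfold WA
  rw [map_mul, map_mul, map_mul, rep_eq h, rep_eq h, rep_eq h,
    ← refl_conj (h.tri.unit 1) (h.tri.unit 2), QuotientGroup.mk_mul,
    QuotientGroup.mk_mul, QuotientGroup.mk_mul]
  group

theorem WB_eq {n : Fin 3 → V} {ρ : Gam 12 12 12 →* PU21} (h : IsTriangleRep 12 12 12 n ρ) :
    ρ (WB 12 12 12) = ((refl (n 0) (h.tri.unit 0) * refl (n 1) (h.tri.unit 1) *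
      refl (n 2) (h.tri.unit 2) : SU21) : PU21) := by
  unfold WB
  rw [map_mul, map_mul, rep_eq h, rep_eq h, rep_eq h, QuotientGroup.mk_mul, QuotientGroup.mk_mul]

/-- The triple product. -/
noncomputable def tp (n : Fin 3 → V) : ℂ := herm (n 0) (n 1) * herm (n 1) (n 2) * herm (n 2) (n 0)

/-- `|⟨n₁, I₂ n₃⟩|² = a + 4 a² - 4 Re (triple product)` -/
theorem norm_WA {n : Fin 3 → V} (h : IsTriangle 12 12 12 n) :
    ‖herm (n 0) (R (n 1) (n 2))‖ ^ 2 =
      (2 + √3) / 4 + 4 * ((2 + √3) / 4) ^ 2 - 4 * (tp n).re := by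
  obtain ⟨h1, h2, h3⟩ := norm_sq_herm h
  have e : herm (n 0) (R (n 1) (n 2)) = -herm (n 0) (n 2) + 2 * herm (n 1) (n 2) * herm (n 0) (n 1) := by
    unfold R
    rw [herm_add_right, herm_neg_right, herm_smul_right, map_mul, herm_conj, Complex.conj_ofNat]
  rw [e, ← Complex.normSq_eq_norm_sq, Complex.normSq_apply]
  rw [← Complex.normSq_eq_norm_sq, Complex.normSq_apply] at h1 h2 h3
  unfold tp
  have e3 : herm (n 0) (n 2) = conj (herm (n 2) (n 0)) := (herm_conj _ _).symm
  rw [e3]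
  generalize herm (n 0) (n 1) = u at *
  generalize herm (n 1) (n 2) = v at *
  generalize herm (n 2) (n 0) = w at *
  simp
  linear_combination h3 + 4 * (v.re * v.re + v.im * v.im) * h1 + (2 + √3) * h2

end Pool.Agent.K3h67.CHT
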